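import Pool.Agent.P8H9.AV.Van

/-! Few members of the family are not separable. -/

set_option autoImplicit false

namespace Pool.Agent.P8H9.AV

open Polynomial Finset

variable {F : Type*} [Field F]

theorem fam_monic {f : F[X]} (hf : f.Monic) {k : ℕ} (hk : k ≤ f.natDegree) (c : Fin k → F) :
    (fam f c).Monic ∧ (fam f c).natDegree = f.natDegree := by
  have h1 : (∑ j : Fin k, C (c j) * X ^ (j : ℕ) : F[X]).degree < f.degree := by
    rw [degree_eq_natDegree hf.ne_zero]
    refine lt_of_lt_of_le ?_ (Nat.cast_le.2 hk)
    refine (degree_sum_fin_lt c)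
  refine ⟨hf.add_of_left h1, natDegree_add_eq_left_of_degree_lt h1⟩

open Classical in
theorem line_bad [Fintype F] {g : F[X]} (hd : derivative g ≠ 0) :
    (univ.filter fun a : F => ¬ (g + C a).Separable).card ≤ (derivative g).natDegree := by
  set Ω := AlgebraicClosure F with hΩ
  have h1 : ((univ.filter fun a : F => ¬ (g + C a).Separable).image fun a => -algebraMap F Ω a) ⊆
      ((derivative g).aroots Ω).toFinset.image fun α => aeval α g := by
    intro b hb
    rw [mem_image] at hb
    obtain ⟨a, ha, rfl⟩ := hb
    rw [mem_filter] at ha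
    have h2 := ha.2
    rw [Polynomial.Separable, isCoprime_iff_aeval_ne_zero_of_isAlgClosed F Ω] at h2
    push Not at h2
    obtain ⟨α, h3, h4⟩ := h2
    rw [mem_image]
    refine ⟨α, ?_, ?_⟩
    · rw [Multiset.mem_toFinset, mem_aroots]
      refine ⟨hd, ?_⟩
      rw [derivative_add, derivative_C, add_zero] at h4
      exact h4
    · rw [map_add, aeval_C] at h3
      exact eq_neg_of_add_eq_zero_left h3
  have h2 := card_le_card h1
  have hinj : Function.Injective fun a => -algebraMap F Ω a :=
    fun a b h => (algebraMap F Ω).injective (neg_injective h)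
  rw [card_image_of_injective _ hinj] at h2
  refine h2.trans (card_image_le.trans ((Multiset.toFinset_card_le _).trans ?_))
  exact (card_roots' _).trans natDegree_map_le

open Classical in
theorem fam_bad [Fintype F] {f : F[X]} (hf : f.Monic) {k : ℕ} (hk1 : 1 ≤ k) (hk : k ≤ f.natDegree) :
    (univ.filter fun c : Fin k → F => ¬ (fam f c).Separable).card * Fintype.card F ≤
      (if (f.natDegree : F) = 0 then Fintype.card F else f.natDegree) * Fintype.card F ^ k := by
  split_ifs with h0
  · rw [mul_comm]
    refine Nat.mul_le_mul_left _ ?_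
    refine (card_le_univ _).trans ?_
    rw [Fintype.card_fun, Fintype.card_fin]
  · obtain ⟨j, rfl⟩ : ∃ j, k = j + 1 := ⟨k - 1, by omega⟩
    have h1 : (univ.filter fun c : Fin (j + 1) → F => ¬ (fam f c).Separable).card =
        ∑ c' : Fin j → F, (univ.filter fun a : F => ¬ (fam f (Fin.cons 0 c') + C a).Separable).card := by
      rw [card_filter, ← (Fin.consEquiv fun _ => F).sum_comp, Fintype.sum_prod_type, sum_comm]
      refine sum_congr rfl fun c' _ => ?_
      rw [card_filter]
      refine sum_congr rfl fun a _ => ?_
      have : fam f ((Fin.consEquiv fun _ => F) (a, c')) = fam f (Fin.cons 0 c') + C a := by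
        unfold fam
        rw [Fin.sum_univ_succ, Fin.sum_univ_succ]
        simp only [Fin.consEquiv_apply, Fin.cons_zero, Fin.cons_succ, Fin.val_zero, pow_zero,
          mul_one, map_zero, zero_add]
        ring
      rw [this]
    rw [h1]
    have h2 : ∀ c' : Fin j → F,
        (univ.filter fun a : F => ¬ (fam f (Fin.cons 0 c') + C a).Separable).card ≤
          f.natDegree := by
      intro c'
      obtain ⟨hm, hd⟩ := fam_monic hf hk (Fin.cons 0 c')
      have hne : derivative (fam f (Fin.cons 0 c')) ≠ 0 := by
        intro h
        have h3 := congrArg (fun g => g.coeff (f.natDegree - 1)) h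
        simp only [coeff_derivative, coeff_zero] at h3
        have h4 : f.natDegree - 1 + 1 = f.natDegree := by omega
        rw [h4] at h3
        have h5 : (fam f (Fin.cons 0 c')).coeff f.natDegree = 1 := by
          rw [← hd]
          exact hm
        rw [h5, one_mul] at h3
        apply h0
        rw [← h3]
        have : ((f.natDegree - 1 : ℕ) : F) + 1 = ((f.natDegree - 1 + 1 : ℕ) : F) := by push_cast; ring
        rw [this, h4]
      refine (line_bad hne).trans ?_
      refine (natDegree_derivative_le _).trans ?_
      rw [hd]
      omega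
    calc (∑ c' : Fin j → F,
          (univ.filter fun a : F => ¬ (fam f (Fin.cons 0 c') + C a).Separable).card) * Fintype.card F
        ≤ (∑ _c' : Fin j → F, f.natDegree) * Fintype.card F :=
          Nat.mul_le_mul_right _ (sum_le_sum fun c' _ => h2 c')
      _ = f.natDegree * Fintype.card F ^ (j + 1) := by
        rw [sum_const, card_univ, Fintype.card_fun, Fintype.card_fin, smul_eq_mul, pow_succ]
        ring

end Pool.Agent.P8H9.AV
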