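import Pool.Agent.P8H9.AV.Local
import Pool.Agent.P8H9.AV.Bad

/-! The average of the local factor. -/

set_option autoImplicit false

namespace Pool.Agent.P8H9.AV

open Polynomial Finset Pool.Agent.H341R2.Sharp

variable {F : Type*} [Field F] [Fintype F] [DecidableEq F]

open Classical in
/-- the local factor, `1` if the polynomial is not separable -/
noncomputable def ell (g : F[X]) (x : ℂ) : ℂ :=
  if g.Separable then ∑' n : ℕ, (Bc g n : ℂ) * x ^ n else 1

/-- the average of the local factor -/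
noncomputable def Eavg (f : F[X]) (k : ℕ) (x : ℂ) : ℂ :=
  (∑ c : Fin k → F, ell (fam f c) x) / (Fintype.card F : ℂ) ^ k

/-- the tail constants -/
noncomputable def Sc (K j : ℕ) (y₀ : ℝ) : ℝ := ∑' n : ℕ, ((n + j + K).choose K : ℝ) * y₀ ^ n

theorem Sc_nonneg (K j : ℕ) {y₀ : ℝ} (h0 : 0 < y₀) : 0 ≤ Sc K j y₀ :=
  tsum_nonneg fun _ => by positivity

/-- bound of the tail of the series with the coefficients `choose` -/
theorem tail_le (K j : ℕ) {y y₀ : ℝ} (h0 : 0 ≤ y) (hy : y ≤ y₀) (hy0 : 0 < y₀) (h1 : y₀ < 1) :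
    ∑' n : ℕ, ((n + j + K).choose K : ℝ) * y ^ (n + j) ≤ Sc K j y₀ * y ^ j := by
  have h2 := summable_ch' K j hy0 h1
  rw [Sc, ← tsum_mul_right]
  refine Summable.tsum_le_tsum (fun n => ?_) ?_ (h2.mul_right _)
  · rw [pow_add, ← mul_assoc]
    gcongr
  · refine Summable.of_nonneg_of_le (fun n => by positivity) (fun n => ?_) (h2.mul_right (y ^ j))
    rw [pow_add, ← mul_assoc]
    gcongr

theorem norm_term (hF : ringChar F ≠ 2) {g : F[X]} (hg : g.Monic) (hodd : Odd g.natDegree)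
    (x : ℂ) (n : ℕ) : ‖(Bc g n : ℂ) * x ^ n‖ ≤
      ((n + 5 * g.natDegree).choose (5 * g.natDegree) : ℝ) * (sq F * ‖x‖) ^ n := by
  rw [norm_mul, norm_pow, Complex.norm_intCast]
  calc |(Bc g n : ℝ)| * ‖x‖ ^ n
      ≤ (((n + 5 * g.natDegree).choose (5 * g.natDegree) : ℝ) * sq F ^ n) * ‖x‖ ^ n :=
        mul_le_mul_of_nonneg_right (Bc_bd hF hg hodd n) (by positivity)
    _ = _ := by rw [mul_pow]; ring

/-- tail of the local series -/
theorem local_tail (hF : ringChar F ≠ 2) {g : F[X]} (hg : g.Monic) (hodd : Odd g.natDegree)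
    (j : ℕ) {x : ℂ} {y₀ : ℝ} (hy : sq F * ‖x‖ ≤ y₀) (hy0 : 0 < y₀) (h1 : y₀ < 1) :
    ‖∑' n : ℕ, (Bc g (n + j) : ℂ) * x ^ (n + j)‖ ≤
      Sc (5 * g.natDegree) j y₀ * (sq F * ‖x‖) ^ j := by
  have hs := sq_pos (F := F)
  have h2 := summable_local hF hg hodd (lt_of_le_of_lt hy h1)
  have h3 : Summable fun n : ℕ => ‖(Bc g (n + j) : ℂ) * x ^ (n + j)‖ :=
    (summable_nat_add_iff (f := fun n => ‖(Bc g n : ℂ) * x ^ n‖) j).2 h2
  refine (norm_tsum_le_tsum_norm h3).trans ?_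
  refine le_trans ?_ (tail_le (5 * g.natDegree) j (by positivity) hy hy0 h1)
  refine Summable.tsum_le_tsum (fun n => norm_term hF hg hodd x (n + j)) h3 ?_
  exact (summable_nat_add_iff (f := fun n => ((n + 5 * g.natDegree).choose (5 * g.natDegree) : ℝ) *
    (sq F * ‖x‖) ^ n) j).2 (summable_ch _ (by positivity) (lt_of_le_of_lt hy h1))

theorem local_sub_one (hF : ringChar F ≠ 2) {g : F[X]} (hg : g.Monic) (hodd : Odd g.natDegree)
    {x : ℂ} {y₀ : ℝ} (hy : sq F * ‖x‖ ≤ y₀) (hy0 : 0 < y₀) (h1 : y₀ < 1) :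
    ‖∑' n : ℕ, (Bc g n : ℂ) * x ^ n - 1‖ ≤ Sc (5 * g.natDegree) 1 y₀ * (sq F * ‖x‖) := by
  have h2 := (summable_local hF hg hodd (lt_of_le_of_lt hy h1)).of_norm
  rw [h2.tsum_eq_zero_add, Bc_zero]
  have h3 := local_tail hF hg hodd 1 hy hy0 h1
  rw [pow_one] at h3
  simpa using h3

theorem ell_sub_one (hF : ringChar F ≠ 2) {g : F[X]} (hg : g.Monic) (hodd : Odd g.natDegree)
    {x : ℂ} {y₀ : ℝ} (hy : sq F * ‖x‖ ≤ y₀) (hy0 : 0 < y₀) (h1 : y₀ < 1) :
    ‖ell g x - 1‖ ≤ Sc (5 * g.natDegree) 1 y₀ * (sq F * ‖x‖) := by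
  unfold ell
  split_ifs
  · exact local_sub_one hF hg hodd hy hy0 h1
  · rw [sub_self, norm_zero]
    have := Sc_nonneg (5 * g.natDegree) 1 hy0
    have := sq_pos (F := F)
    positivity

open Classical in
/-- **The average of the local factor.** -/
theorem Eavg_sub_one (hF : ringChar F ≠ 2) {f : F[X]} (hf : f.Monic) (hodd : Odd f.natDegree)
    {k : ℕ} (hk1 : 1 ≤ k) (hk : k ≤ f.natDegree) (D : ℝ)
    (hD : ((univ.filter fun c : Fin k → F => ¬ (fam f c).Separable).card : ℝ) * Fintype.card F ≤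
      D * (Fintype.card F : ℝ) ^ k)
    {x : ℂ} {y₀ : ℝ} (hy : sq F * ‖x‖ ≤ y₀) (hy0 : 0 < y₀) (h1 : y₀ < 1) :
    ‖Eavg f k x - 1‖ ≤ D / Fintype.card F * (Sc (5 * f.natDegree) 1 y₀ * (sq F * ‖x‖)) +
      Sc (5 * f.natDegree) (k + 1) y₀ * (sq F * ‖x‖) ^ (k + 1) := by
  set K := 5 * f.natDegree with hK
  set q : ℝ := (Fintype.card F : ℝ) with hq
  have hq0 : 0 < q := by
    rw [hq]
    exact_mod_cast Fintype.card_pos
  have hs := sq_pos (F := F)
  have hlt := lt_of_le_of_lt hy h1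
  have hfam : ∀ c : Fin k → F, (fam f c).Monic ∧ Odd (fam f c).natDegree ∧
      5 * (fam f c).natDegree = K := by
    intro c
    obtain ⟨h2, h3⟩ := fam_monic hf hk c
    exact ⟨h2, by rwa [h3], by rw [h3]⟩
  set v : (Fin k → F) → ℂ := fun c => ∑' n : ℕ, (Bc (fam f c) n : ℂ) * x ^ n with hv
  -- the complete average
  have hsumv : ∑ c, (v c - 1) = ∑ c : Fin k → F, ∑' n : ℕ, (Bc (fam f c) (n + (k + 1)) : ℂ) *
      x ^ (n + (k + 1)) := by
    have h2 : ∀ c, v c - 1 = (∑ n ∈ range k, (Bc (fam f c) (n + 1) : ℂ) * x ^ (n + 1)) +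
        ∑' n : ℕ, (Bc (fam f c) (n + (k + 1)) : ℂ) * x ^ (n + (k + 1)) := by
      intro c
      have h3 := (summable_local hF (hfam c).1 (hfam c).2.1 hlt).of_norm
      rw [hv]
      simp only
      rw [← h3.sum_add_tsum_nat_add (k + 1), sum_range_succ', Bc_zero]
      simp only [Int.cast_one, pow_zero, mul_one]
      ring
    rw [sum_congr rfl fun c _ => h2 c, sum_add_distrib, sum_comm]
    have h4 : ∑ n ∈ range k, ∑ c : Fin k → F, (Bc (fam f c) (n + 1) : ℂ) * x ^ (n + 1) = 0 := by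
      apply sum_eq_zero
      intro n hn
      rw [mem_range] at hn
      rw [← sum_mul]
      have := sum_Bc hF f (k := k) (n := n + 1) (by omega) (by omega)
      have h5 : ∑ c : Fin k → F, (Bc (fam f c) (n + 1) : ℂ) = 0 := by exact_mod_cast this
      rw [h5, zero_mul]
    rw [h4, zero_add]
  have hb1 : ‖∑ c, (v c - 1)‖ ≤ q ^ k * (Sc K (k + 1) y₀ * (sq F * ‖x‖) ^ (k + 1)) := by
    rw [hsumv]
    refine (norm_sum_le _ _).trans ?_
    refine (sum_le_card_nsmul _ _ (Sc K (k + 1) y₀ * (sq F * ‖x‖) ^ (k + 1))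
      fun c _ => ?_).trans_eq ?_
    · have := local_tail hF (hfam c).1 (hfam c).2.1 (k + 1) hy hy0 h1
      rwa [(hfam c).2.2] at this
    · rw [card_univ, Fintype.card_fun, Fintype.card_fin, nsmul_eq_mul]
      push_cast
      rfl
  -- the members which are not separable
  have hsplit : ∑ c : Fin k → F, (ell (fam f c) x - 1) = ∑ c, (v c - 1) -
      ∑ c ∈ univ.filter (fun c : Fin k → F => ¬ (fam f c).Separable), (v c - 1) := by
    rw [eq_sub_iff_add_eq, sum_filter, ← sum_add_distrib]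
    refine sum_congr rfl fun c _ => ?_
    unfold ell
    split_ifs with h2
    · rw [add_zero]
    · rw [sub_self, zero_add]
  have hb2 : ‖∑ c ∈ univ.filter (fun c : Fin k → F => ¬ (fam f c).Separable), (v c - 1)‖ ≤
      ((univ.filter fun c : Fin k → F => ¬ (fam f c).Separable).card : ℝ) *
        (Sc K 1 y₀ * (sq F * ‖x‖)) := by
    refine (norm_sum_le _ _).trans ?_
    refine (sum_le_card_nsmul _ _ _ fun c _ => ?_).trans_eq (nsmul_eq_mul _ _)
    have := local_sub_one hF (hfam c).1 (hfam c).2.1 hy hy0 h1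
    rwa [(hfam c).2.2] at this
  have hE : Eavg f k x - 1 = (∑ c : Fin k → F, (ell (fam f c) x - 1)) / (q : ℂ) ^ k := by
    unfold Eavg
    rw [sum_sub_distrib, sum_const, card_univ, Fintype.card_fun, Fintype.card_fin, nsmul_one,
      sub_div]
    have h3 : (q : ℂ) = (Fintype.card F : ℂ) := by rw [hq]; push_cast; rfl
    rw [h3]
    congr 1
    push_cast
    rw [div_self]
    exact pow_ne_zero _ (by exact_mod_cast Fintype.card_ne_zero)
  rw [hE, norm_div, norm_pow, Complex.norm_real, Real.norm_of_nonneg hq0.le,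
    div_le_iff₀ (pow_pos hq0 k), hsplit]
  refine (norm_sub_le _ _).trans ((add_le_add hb1 hb2).trans ?_)
  have h5 : ((univ.filter fun c : Fin k → F => ¬ (fam f c).Separable).card : ℝ) ≤ D / q * q ^ k := by
    rw [div_mul_eq_mul_div, le_div_iff₀ hq0]
    exact hD
  have h6 : 0 ≤ Sc K 1 y₀ * (sq F * ‖x‖) := by
    have := Sc_nonneg K 1 hy0
    positivity
  have h7 := mul_le_mul_of_nonneg_right h5 h6
  linarith

end Pool.Agent.P8H9.AV
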