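import Pool.Agent.H341R2.WeilSharp

/-! The inverse of the `L`-polynomial of a quadratic character sum: coefficients, recursion. -/

set_option autoImplicit false

namespace Pool.Agent.P8H9.AV

open Polynomial Finset Pool.Agent.H341R2.Sharp

variable {F : Type*} [Field F] [Fintype F] [DecidableEq F]

/-- partial product of the inverse of the `L`-series -/
noncomputable def G (f : F[X]) (N : ℕ) : ℤ[X] :=
  ∏ P ∈ Irr F N, (1 - C (lam f P) * X ^ P.natDegree)

theorem irr_deg {N : ℕ} {P : F[X]} (hP : P ∈ Irr F N) : 1 ≤ P.natDegree :=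
  (mem_Irr.1 hP).2.1.natDegree_pos

theorem G_coeff_zero (f : F[X]) (N : ℕ) : (G f N).coeff 0 = 1 := by
  unfold G
  rw [coeff_zero_eq_eval_zero, eval_prod]
  apply prod_eq_one
  intro P hP
  have := irr_deg hP
  simp [zero_pow (by omega : P.natDegree ≠ 0)]

/-- telescoping -/
theorem geom_coeff (a : ℤ) (d n : ℕ) (hd : 1 ≤ d) (H : ℤ[X]) :
    (C a * X ^ d * H).coeff n = ∑ k ∈ Icc 1 n,
      if k * d ≤ n then a ^ k * ((1 - C a * X ^ d) * H).coeff (n - k * d) else 0 := by
  have h1 : ∀ K : ℕ, C a * X ^ d * H = (∑ k ∈ Icc 1 K, C (a ^ k) * (((1 - C a * X ^ d) * H) *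
      X ^ (k * d))) + C (a ^ (K + 1)) * (H * X ^ ((K + 1) * d)) := by
    intro K
    induction K with
    | zero => simp; ring
    | succ K ih =>
      rw [ih, sum_Icc_succ_top (by omega)]
      rw [C_pow, C_pow]
      ring
  rw [h1 n, coeff_add, coeff_C_mul, coeff_mul_X_pow', if_neg (by nlinarith), mul_zero, add_zero,
    finsetSum_coeff]
  refine sum_congr rfl fun k _ => ?_
  rw [coeff_C_mul, coeff_mul_X_pow']
  split_ifs <;> simp

theorem G_rec (f : F[X]) (N n : ℕ) (hn : n ≤ N) :
    (n : ℤ) * (G f N).coeff n = -∑ m ∈ Icc 1 n, (G f N).coeff (n - m) * T f m := by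
  classical
  have h1 : X * derivative (G f N) = -∑ P ∈ Irr F N, C (P.natDegree : ℤ) *
      (C (lam f P) * X ^ P.natDegree * ∏ Q ∈ (Irr F N).erase P, (1 - C (lam f Q) * X ^ Q.natDegree)) := by
    unfold G
    rw [derivative_prod_finset, mul_sum, ← sum_neg_distrib]
    refine sum_congr rfl fun P hP => ?_
    have hd := irr_deg hP
    rw [derivative_sub, derivative_one, zero_sub, derivative_C_mul, derivative_X_pow]
    obtain ⟨e, he⟩ : ∃ e, P.natDegree = e + 1 := ⟨P.natDegree - 1, by omega⟩
    rw [he, Nat.add_sub_cancel, pow_succ]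
    push_cast
    simp only [map_add, map_natCast, map_one]
    ring
  have h2 : (X * derivative (G f N)).coeff n = (n : ℤ) * (G f N).coeff n := by
    rcases n with _ | n
    · simp
    · rw [coeff_X_mul, coeff_derivative]
      push_cast
      ring
  rw [← h2, h1, coeff_neg, finsetSum_coeff]
  congr 1
  have h3 : ∀ P ∈ Irr F N, (C (P.natDegree : ℤ) * (C (lam f P) * X ^ P.natDegree *
      ∏ Q ∈ (Irr F N).erase P, (1 - C (lam f Q) * X ^ Q.natDegree))).coeff n =
      ∑ m ∈ Icc 1 n, (G f N).coeff (n - m) * ∑ k ∈ Icc 1 N,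
        (if k * P.natDegree = m then (P.natDegree : ℤ) * lam f P ^ k else 0) := by
    intro P hP
    have hd := irr_deg hP
    rw [coeff_C_mul, geom_coeff _ _ _ hd]
    have h4 : (1 - C (lam f P) * X ^ P.natDegree) *
        ∏ Q ∈ (Irr F N).erase P, (1 - C (lam f Q) * X ^ Q.natDegree) = G f N := by
      unfold G
      exact mul_prod_erase (Irr F N) (fun P => (1 - C (lam f P) * X ^ P.natDegree : ℤ[X])) hP
    rw [h4, mul_sum]
    have h5 : ∀ m ∈ Icc 1 n, (G f N).coeff (n - m) * ∑ k ∈ Icc 1 N,
        (if k * P.natDegree = m then (P.natDegree : ℤ) * lam f P ^ k else 0) =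
        ∑ k ∈ Icc 1 n, (G f N).coeff (n - m) *
        (if k * P.natDegree = m then (P.natDegree : ℤ) * lam f P ^ k else 0) := by
      intro m hm
      rw [mem_Icc] at hm
      rw [mul_sum]
      symm
      apply sum_subset
      · intro k hk
        rw [mem_Icc] at hk ⊢
        omega
      · intro k hk hk'
        rw [mem_Icc] at hk hk'
        rw [if_neg, mul_zero]
        intro h
        have : k ≤ m := by nlinarith
        exact hk' ⟨hk.1, by omega⟩
    rw [sum_congr rfl h5, sum_comm]
    refine sum_congr rfl fun k hk => ?_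
    rw [mem_Icc] at hk
    split_ifs with h
    · rw [sum_eq_single (k * P.natDegree)]
      · rw [if_pos rfl]
        ring
      · intro m _ hm
        rw [if_neg (Ne.symm hm), mul_zero]
      · intro h'
        exact absurd (mem_Icc.2 ⟨Nat.mul_pos (by omega) hd, h⟩) h'
    · rw [mul_zero]
      symm
      apply sum_eq_zero
      intro m hm
      rw [mem_Icc] at hm
      rw [if_neg (by omega), mul_zero]
  rw [sum_congr rfl h3, sum_comm]
  refine sum_congr rfl fun m hm => ?_
  rw [mem_Icc] at hm
  rw [T_eq f N m hm.1 (by omega), ← mul_sum]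

/-- the coefficients of the inverse of the `L`-series -/
noncomputable def Bc (f : F[X]) (n : ℕ) : ℤ := (G f n).coeff n

theorem G_stable (f : F[X]) (N n : ℕ) (hn : n ≤ N) : (G f N).coeff n = Bc f n := by
  induction n using Nat.strong_induction_on generalizing N with
  | _ n ih =>
    rcases Nat.eq_zero_or_pos n with h0 | h0
    · subst h0
      rw [Bc, G_coeff_zero, G_coeff_zero]
    · have h1 := G_rec f N n hn
      have h2 := G_rec f n n le_rfl
      have h3 : ∑ m ∈ Icc 1 n, (G f N).coeff (n - m) * T f m =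
          ∑ m ∈ Icc 1 n, (G f n).coeff (n - m) * T f m := by
        refine sum_congr rfl fun m hm => ?_
        rw [mem_Icc] at hm
        rw [ih (n - m) (by omega) N (by omega), ih (n - m) (by omega) n (by omega)]
      rw [h3, ← h2] at h1
      have h4 : (n : ℤ) ≠ 0 := by exact_mod_cast h0.ne'
      exact mul_left_cancel₀ h4 h1

theorem Bc_zero (f : F[X]) : Bc f 0 = 1 := G_coeff_zero f 0

theorem Bc_rec (f : F[X]) (n : ℕ) :
    (n : ℤ) * Bc f n = -∑ m ∈ Icc 1 n, Bc f (n - m) * T f m := by
  have h := G_rec f n n le_rfl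
  rw [G_stable f n n le_rfl] at h
  rw [h]
  congr 1
  refine sum_congr rfl fun m hm => ?_
  rw [G_stable f n (n - m) (by omega)]

open scoped Classical in
/-- the coefficients as sums over sets of irreducible polynomials -/
theorem Bc_eq (f : F[X]) (n : ℕ) : Bc f n = ∑ S ∈ (Irr F n).powerset,
    if ∑ P ∈ S, P.natDegree = n then (-1) ^ S.card * ∏ P ∈ S, lam f P else 0 := by
  unfold Bc G
  have h1 : ∀ P : F[X], (1 - C (lam f P) * X ^ P.natDegree : ℤ[X]) =
      1 + C (-lam f P) * X ^ P.natDegree := by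
    intro P
    rw [map_neg]
    ring
  simp_rw [h1]
  rw [prod_one_add, finsetSum_coeff]
  refine sum_congr rfl fun S _ => ?_
  rw [prod_mul_distrib, prod_pow_eq_pow_sum, ← map_prod, coeff_C_mul, coeff_X_pow]
  have h2 : ∏ P ∈ S, -lam f P = (-1) ^ S.card * ∏ P ∈ S, lam f P := by
    rw [prod_neg]
  rw [h2]
  split_ifs with h3 h4 h4
  · rw [mul_one]
  · exact absurd h3.symm h4
  · exact absurd h4.symm h3
  · rw [mul_zero]

/-- size of the coefficients -/
theorem Bc_bound (f : F[X]) (K : ℕ) (r : ℝ) (hr : 0 ≤ r)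
    (hT : ∀ m, 1 ≤ m → |(T f m : ℝ)| ≤ K * r ^ m) (n : ℕ) :
    |(Bc f n : ℝ)| ≤ ((n + K).choose K : ℝ) * r ^ n := by
  induction n using Nat.strong_induction_on with
  | _ n ih =>
    rcases Nat.eq_zero_or_pos n with h0 | h0
    · subst h0
      rw [Bc_zero]
      simp
    · have hn : (0 : ℝ) < n := by exact_mod_cast h0
      have h1 := Bc_rec f n
      have h2 : (n : ℝ) * |(Bc f n : ℝ)| ≤ ∑ m ∈ Icc 1 n, ((n - m + K).choose K : ℝ) * K * r ^ n := by
        have h3 : (n : ℝ) * |(Bc f n : ℝ)| = |∑ m ∈ Icc 1 n, (Bc f (n - m) : ℝ) * (T f m : ℝ)| := by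
          have h4 : ((n : ℤ) * Bc f n : ℤ) = (-∑ m ∈ Icc 1 n, Bc f (n - m) * T f m : ℤ) := h1
          have h5 : (n : ℝ) * (Bc f n : ℝ) = -∑ m ∈ Icc 1 n, (Bc f (n - m) : ℝ) * (T f m : ℝ) := by
            exact_mod_cast h4
          have h6 : (n : ℝ) * |(Bc f n : ℝ)| = |(n : ℝ) * (Bc f n : ℝ)| := by
            rw [abs_mul, abs_of_pos hn]
          rw [h6, h5, abs_neg]
        rw [h3]
        refine (abs_sum_le_sum_abs _ _).trans (sum_le_sum fun m hm => ?_)
        rw [mem_Icc] at hm
        rw [abs_mul]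
        calc |(Bc f (n - m) : ℝ)| * |(T f m : ℝ)|
            ≤ (((n - m + K).choose K : ℝ) * r ^ (n - m)) * (K * r ^ m) :=
              mul_le_mul (ih (n - m) (by omega)) (hT m hm.1) (abs_nonneg _) (by positivity)
          _ = ((n - m + K).choose K : ℝ) * K * (r ^ (n - m) * r ^ m) := by ring
          _ = _ := by rw [← pow_add, Nat.sub_add_cancel hm.2]
      have h6 : ∑ m ∈ Icc 1 n, ((n - m + K).choose K : ℝ) * K * r ^ n =
          ((n + K).choose (K + 1) : ℝ) * K * r ^ n := by
        rw [← sum_mul, ← sum_mul]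
        congr 2
        have h7 : ∑ m ∈ Icc 1 n, ((n - m + K).choose K) = (n + K).choose (K + 1) := by
          have h8 : ∑ m ∈ Icc 1 n, ((n - m + K).choose K) = ∑ j ∈ range n, (j + K).choose K := by
            refine sum_bij' (fun m _ => n - m) (fun j _ => n - j) ?_ ?_ ?_ ?_ ?_
            · intro m hm
              rw [mem_Icc] at hm
              rw [mem_range]
              omega
            · intro j hj
              rw [mem_range] at hj
              rw [mem_Icc]
              omega
            · intro m hm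
              rw [mem_Icc] at hm
              omega
            · intro j hj
              rw [mem_range] at hj
              omega
            · intro m hm
              rfl
          rw [h8]
          obtain ⟨j, rfl⟩ : ∃ j, n = j + 1 := ⟨n - 1, by omega⟩
          rw [Nat.sum_range_add_choose]
          congr 1
          omega
        exact_mod_cast h7
      rw [h6] at h2
      have h9 : ((n + K).choose (K + 1) : ℝ) * (K + 1) = ((n + K).choose K : ℝ) * n := by
        have := Nat.choose_succ_right_eq (n + K) K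
        rw [Nat.add_sub_cancel] at this
        exact_mod_cast this
      have h10 : ((n + K).choose (K + 1) : ℝ) * K ≤ ((n + K).choose K : ℝ) * n := by
        rw [← h9]
        have : (0 : ℝ) ≤ ((n + K).choose (K + 1) : ℝ) := by positivity
        nlinarith
      have h11 : (n : ℝ) * |(Bc f n : ℝ)| ≤ n * (((n + K).choose K : ℝ) * r ^ n) := by
        calc (n : ℝ) * |(Bc f n : ℝ)| ≤ ((n + K).choose (K + 1) : ℝ) * K * r ^ n := h2
          _ ≤ ((n + K).choose K : ℝ) * n * r ^ n :=
            mul_le_mul_of_nonneg_right h10 (pow_nonneg hr n)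
          _ = _ := by ring
      exact le_of_mul_le_mul_left h11 hn

end Pool.Agent.P8H9.AV
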