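import Pool.Agent.H341R2.CurveDefs

/-! The universal family of hyperelliptic curves with a rational Weierstrass point at infinity, and means
over the integral members of bounded height. -/

set_option autoImplicit false

namespace Pool.Agent.P8H9.AV

open Polynomial Pool.Agent.H341R2

/-- the member `f(x) + c_{k-1} x^{k-1} + … + c_1 x + c_0`, `c ∈ ℤ^k`, of the family -/
noncomputable def member (f : ℤ[X]) {k : ℕ} (c : Fin k → ℤ) : ℤ[X] :=
  f + ∑ j : Fin k, C (c j) * X ^ (j : ℕ)

open Classical in
/-- the Euler factor `det(1 - Frob p^{-s} | H¹)⁻¹` of the curve `y² = f(x)` at the prime `p`, if the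
curve has good reduction at `p` (`p ≠ 2` and `f` stays separable modulo `p`); `1` otherwise -/
noncomputable def eulerFactor (f : ℤ[X]) (p : Nat.Primes) (s : ℂ) : ℂ :=
  if GoodPrime f 1 p then goodFactor 1 1 f 1 p s else 1

/-- the `L`-function `L(H¹(C), s)`, `C : y² = f(x)`, the product over the primes of good reduction -/
noncomputable def LH1 (f : ℤ[X]) (s : ℂ) : ℂ := ∏' p : Nat.Primes, eulerFactor f p s

/-- the mean of `Φ` over the integral vectors `c` in the box `|c_j| ≤ H_j` -/
noncomputable def mean {k : ℕ} (H : Fin k → ℕ) (Φ : (Fin k → ℤ) → ℂ) : ℂ :=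
  (∑ c ∈ Fintype.piFinset fun j : Fin k => Finset.Icc (-(H j : ℤ)) (H j), Φ c) /
    ∏ j : Fin k, (2 * H j + 1 : ℂ)

end Pool.Agent.P8H9.AV
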