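import Pool.Agent.P8H9.AV.Main

/-! The mean of the `L`-functions: the theorem. -/

set_option autoImplicit false

open Finset Filter Topology Polynomial

namespace Pool.Agent.P8H9.AV

open Pool.Agent.H341R2 Pool.Agent.H341R2.Sharp

attribute [local instance] fp

variable {f : ℤ[X]} {k : ℕ}

theorem gp_diff (hf : f.Monic) (hodd : Odd f.natDegree) (hk : k ≤ f.natDegree) (p : Nat.Primes)
    (a : Fin k → ZMod p) {s : ℂ} (hs : 1 / 2 < s.re) :
    DifferentiableAt ℂ (fun s => gp f k s p a) s := by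
  unfold gp
  by_cases h2 : (p : ℕ) = 2
  · simp_rw [if_pos h2]
    exact differentiableAt_const 1
  · simp_rw [if_neg h2]
    obtain ⟨h3, h4, h5⟩ := red_fam hf hodd hk p a
    have h6 : sq (ZMod p) * ‖((p : ℕ) : ℂ) ^ (-s)‖ < 1 :=
      ((size_le p le_rfl).trans (pow_le_two p hs)).trans_lt (y₀_bounds hs).2
    have h7 := ell_diff (odd_ringChar h2) h3 h4 h6
    have h8 : DifferentiableAt ℂ (fun s : ℂ => ((p : ℕ) : ℂ) ^ (-s)) s := by
      refine DifferentiableAt.const_cpow differentiableAt_id.neg (Or.inl ?_)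
      exact_mod_cast p.2.ne_zero
    exact DifferentiableAt.comp (g := ell (fam (red f p) a)) s h7 h8

theorem Ep_diff (hf : f.Monic) (hodd : Odd f.natDegree) (hk : k ≤ f.natDegree) (p : Nat.Primes)
    {s : ℂ} (hs : 1 / 2 < s.re) : DifferentiableAt ℂ (Ep f k p) s := by
  unfold Ep
  refine DifferentiableAt.div_const ?_ _
  exact DifferentiableAt.fun_sum fun a _ => gp_diff hf hodd hk p a hs

/-- the mean function -/
noncomputable def Mf (f : ℤ[X]) (k : ℕ) (s : ℂ) : ℂ := ∏' p : Nat.Primes, Ep f k p s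

theorem Mf_hasProd (hf : f.Monic) (hodd : Odd f.natDegree) (hk1 : 1 ≤ k) (hk : k ≤ f.natDegree)
    {s : ℂ} (hs : 1 / 2 + 1 / (k + 1 : ℝ) < s.re) : HasProd (fun p => Ep f k p s) (Mf f k s) := by
  have h0 : 0 < 1 / (k + 1 : ℝ) := by positivity
  exact (multipliable_of _ _ (UB_summable f.natDegree hs) fun p =>
    Ep_sub_one hf hodd hk1 hk p (by linarith) le_rfl).hasProd

theorem Mf_diff (hf : f.Monic) (hodd : Odd f.natDegree) (hk1 : 1 ≤ k) (hk : k ≤ f.natDegree) :
    DifferentiableOn ℂ (Mf f k) {s : ℂ | 1 / 2 + 1 / (k + 1 : ℝ) < s.re} := by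
  intro s hs
  rw [Set.mem_ofPred_eq] at hs
  have h0 : 0 < 1 / (k + 1 : ℝ) := by positivity
  obtain ⟨σ, h1, h2⟩ := exists_between hs
  set V : Set ℂ := {s : ℂ | σ < s.re} with hV
  have hVo : IsOpen V := isOpen_lt continuous_const Complex.continuous_re
  have hd : ∀ p, DifferentiableOn ℂ (fun s => Ep f k p s - 1) V := fun p s hs =>
    ((Ep_diff hf hodd hk p (by
      have : σ < s.re := hs
      linarith)).sub_const 1).differentiableWithinAt
  have h3 := Summable.hasProdLocallyUniformlyOn_one_add (f := fun p s => Ep f k p s - 1) hVo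
    (UB_summable f.natDegree h1)
    (Filter.Eventually.of_forall fun p s hs => by
      have hs' : σ < s.re := hs
      exact Ep_sub_one hf hodd hk1 hk p (by linarith) hs'.le)
    (fun p => (hd p).continuousOn)
  have h4 : DifferentiableOn ℂ (fun s => ∏' p, (1 + (Ep f k p s - 1))) V := by
    refine TendstoLocallyUniformlyOn.differentiableOn h3 ?_ hVo
    refine Filter.Eventually.of_forall fun S => ?_
    have : (fun b => ∏ i ∈ S, (1 + (Ep f k i b - 1))) = fun b => ∏ i ∈ S, Ep f k i b := by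
      funext b
      exact prod_congr rfl fun i _ => by ring
    rw [this]
    refine DifferentiableOn.fun_finsetProd fun p _ => ?_
    intro z hz
    have hz' : σ < z.re := hz
    exact (Ep_diff hf hodd hk p (by linarith)).differentiableWithinAt
  have h5 : Mf f k = fun s => ∏' p, (1 + (Ep f k p s - 1)) := by
    funext s
    unfold Mf
    exact tprod_congr fun p => by ring
  rw [h5]
  exact (h4.differentiableAt (hVo.mem_nhds h2)).differentiableWithinAt

/-- finite products of Euler factors -/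
theorem mean_finite (hf : f.Monic) (hodd : Odd f.natDegree) (hk : k ≤ f.natDegree)
    (S : Finset Nat.Primes) {s : ℂ} (hs : 1 / 2 < s.re) :
    Tendsto (fun H : Fin k → ℕ => mean H fun c => ∏ p ∈ S, eulerFactor (member f c) p s) atTop
      (𝓝 (∏ p ∈ S, Ep f k p s)) := by
  have := nz
  have h1 := mean_prod k S (gp f k s)
  refine h1.congr fun H => ?_
  congr 1
  funext c
  exact prod_congr rfl fun p _ => (factor_eq hf hodd hk c p hs).symm

/-- the mean of the `L`-functions -/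
theorem mean_L (hf : f.Monic) (hodd : Odd f.natDegree) (hk : k ≤ f.natDegree)
    {s : ℂ} (hs : 3 / 2 < s.re) :
    Tendsto (fun H : Fin k → ℕ => mean H fun c => LH1 (member f c) s) atTop (𝓝 (Mf f k s)) := by
  have hs2 : 1 / 2 < s.re := by linarith
  set u : Nat.Primes → ℝ := fun p => Sc (5 * f.natDegree) 1 ((2 : ℝ) ^ (1 / 2 - s.re)) *
      ((p : ℕ) : ℝ) ^ (1 / 2 - s.re) with hu
  have hsum : Summable u := Summable.mul_left _ (Nat.Primes.summable_rpow.2 (by linarith))
  have hg : ∀ (p : Nat.Primes) (a : Fin k → ZMod p), ‖gp f k s p a - 1‖ ≤ u p :=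
    fun p a => gp_sub_one hf hodd hk p a hs2 le_rfl
  have hE : ∀ p, ‖Ep f k p s - 1‖ ≤ u p := fun p => Ep_sub_one_le p s (u p) (hg p)
  rw [Metric.tendsto_atTop]
  intro ε hε
  obtain ⟨S, hS⟩ := tail_small u hsum (by positivity : (0 : ℝ) < ε / 3)
  have h1 := mean_finite hf hodd hk S hs2
  rw [Metric.tendsto_atTop] at h1
  obtain ⟨N, hN⟩ := h1 (ε / 3) (by positivity)
  refine ⟨N, fun H hH => ?_⟩
  have h2 := hN H hH
  rw [dist_eq_norm] at h2 ⊢
  have h3 : ‖mean H (fun c => LH1 (member f c) s) -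
      mean H (fun c => ∏ p ∈ S, eulerFactor (member f c) p s)‖ ≤ ε / 3 := by
    rw [← mean_sub]
    refine norm_mean_le H _ _ fun c => ?_
    have h4 := prod_tail (fun p => eulerFactor (member f c) p s) u hsum (fun p => by
      rw [factor_eq hf hodd hk c p hs2]
      exact hg p _) S
    exact h4.trans hS.le
  have h5 : ‖Mf f k s - ∏ p ∈ S, Ep f k p s‖ ≤ ε / 3 :=
    (prod_tail (fun p => Ep f k p s) u hsum hE S).trans hS.le
  calc ‖mean H (fun c => LH1 (member f c) s) - Mf f k s‖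
      = ‖(mean H (fun c => LH1 (member f c) s) -
          mean H (fun c => ∏ p ∈ S, eulerFactor (member f c) p s)) +
        (mean H (fun c => ∏ p ∈ S, eulerFactor (member f c) p s) - ∏ p ∈ S, Ep f k p s) -
        (Mf f k s - ∏ p ∈ S, Ep f k p s)‖ := by
          congr 1
          ring
    _ ≤ ‖mean H (fun c => LH1 (member f c) s) -
          mean H (fun c => ∏ p ∈ S, eulerFactor (member f c) p s)‖ +
        ‖mean H (fun c => ∏ p ∈ S, eulerFactor (member f c) p s) - ∏ p ∈ S, Ep f k p s‖ +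
        ‖Mf f k s - ∏ p ∈ S, Ep f k p s‖ :=
          (norm_sub_le _ _).trans (add_le_add (norm_add_le _ _) le_rfl)
    _ < ε := by linarith

/-- positivity of the local factors at real points -/
theorem gp_pos (hf : f.Monic) (hodd : Odd f.natDegree) (hk : k ≤ f.natDegree) (p : Nat.Primes)
    (a : Fin k → ZMod p) {σ : ℝ} (hσ : 1 / 2 < σ) :
    ∃ r : ℝ, 0 < r ∧ gp f k (σ : ℂ) p a = r := by
  unfold gp
  split_ifs with h2
  · exact ⟨1, one_pos, by simp⟩
  · unfold ell
    split_ifs with h3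
    · obtain ⟨h4, h5, h6⟩ := red_fam hf hodd hk p a
      have h7 : sq (ZMod p) * ‖((p : ℕ) : ℂ) ^ (-(σ : ℂ))‖ < 1 :=
        ((size_le p (s := (σ : ℂ)) le_rfl).trans (pow_le_two p (by simpa using hσ))).trans_lt
          (y₀_bounds (by simpa using hσ)).2
      rw [← exp_local (odd_ringChar h2) h4 h5 h7]
      have h8 : ((p : ℕ) : ℂ) ^ (-(σ : ℂ)) = ((((p : ℕ) : ℝ) ^ (-σ) : ℝ) : ℂ) := by
        rw [Complex.ofReal_cpow (by positivity)]
        push_cast
        rfl
      refine ⟨Real.exp (-∑' n : ℕ, (T (fam (red f p) a) (n + 1) : ℝ) / (n + 1 : ℝ) *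
        (((p : ℕ) : ℝ) ^ (-σ)) ^ (n + 1)), Real.exp_pos _, ?_⟩
      rw [h8, Complex.ofReal_exp, Complex.ofReal_neg, Complex.ofReal_tsum]
      congr 2
      refine tsum_congr fun n => ?_
      push_cast
      rfl
    · exact ⟨1, one_pos, by simp⟩

theorem Mf_pos (hf : f.Monic) (hodd : Odd f.natDegree) (hk1 : 1 ≤ k) (hk : k ≤ f.natDegree)
    {σ : ℝ} (hσ : 1 / 2 + 1 / (k + 1 : ℝ) < σ) : ∃ r : ℝ, 0 < r ∧ Mf f k (σ : ℂ) = r := by
  have h0 : 0 < 1 / (k + 1 : ℝ) := by positivity
  have hσ2 : 1 / 2 < σ := by linarith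
  have hE : ∀ p, ∃ r : ℝ, 0 < r ∧ Ep f k p (σ : ℂ) = r := by
    intro p
    choose r hr1 hr2 using fun a : Fin k → ZMod p => gp_pos hf hodd hk p a hσ2
    have hp : (0 : ℝ) < p := by exact_mod_cast p.2.pos
    refine ⟨(∑ a, r a) / ((p : ℕ) : ℝ) ^ k, div_pos (sum_pos (fun a _ => hr1 a) ⟨0, mem_univ _⟩)
      (by positivity), ?_⟩
    unfold Ep
    rw [sum_congr rfl fun a _ => hr2 a]
    push_cast
    rfl
  choose r hr1 hr2 using hE
  have h1 := Mf_hasProd hf hodd hk1 hk (s := (σ : ℂ)) (by simpa using hσ)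
  have hcl : IsClosed {z : ℂ | z.im = 0 ∧ 0 ≤ z.re} :=
    (isClosed_eq Complex.continuous_im continuous_const).inter
      (isClosed_le continuous_const Complex.continuous_re)
  have h2 : Mf f k (σ : ℂ) ∈ {z : ℂ | z.im = 0 ∧ 0 ≤ z.re} := by
    refine hcl.mem_of_tendsto h1 (Filter.Eventually.of_forall fun S => ?_)
    have h3 : ∏ p ∈ S, Ep f k p (σ : ℂ) = ((∏ p ∈ S, r p : ℝ) : ℂ) := by
      rw [prod_congr rfl fun p _ => hr2 p]
      push_cast
      rfl
    rw [h3]
    exact ⟨Complex.ofReal_im _, by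
      rw [Complex.ofReal_re]
      exact prod_nonneg fun p _ => (hr1 p).le⟩
  have h4 : Mf f k (σ : ℂ) ≠ 0 := by
    have h5 := tprod_one_add_ne_zero_of_summable (f := fun p => Ep f k p (σ : ℂ) - 1)
      (fun p => by
        rw [add_sub_cancel, hr2 p]
        exact_mod_cast (hr1 p).ne')
      (Summable.of_nonneg_of_le (fun _ => norm_nonneg _)
        (fun p => Ep_sub_one hf hodd hk1 hk p (σ := σ) hσ2 (by simp))
        (UB_summable f.natDegree hσ))
    simpa [Mf] using h5
  obtain ⟨h5, h6⟩ := h2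
  have h7 : Mf f k (σ : ℂ) = ((Mf f k (σ : ℂ)).re : ℂ) := Complex.ext (by simp) (by simp [h5])
  refine ⟨(Mf f k (σ : ℂ)).re, lt_of_le_of_ne h6 fun h8 => h4 ?_, h7⟩
  rw [h7, ← h8]
  simp

end Pool.Agent.P8H9.AV
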