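import Mathlib

/-! Exponentials of power series. -/

set_option autoImplicit false

open Filter Topology Finset

namespace Pool.Agent.P8H9.AV

lemma hasDerivAt_ser {c : ℕ → ℂ} {R : ℝ} (hR : 0 < R) {C : ℝ}
    (hc : ∀ n, 1 ≤ n → ‖c n‖ * R ^ n ≤ C) {z : ℂ} (hz : ‖z‖ < R) :
    HasDerivAt (fun z => ∑' n : ℕ, c (n + 1) / (n + 1 : ℂ) * z ^ (n + 1))
      (∑' n : ℕ, c (n + 1) * z ^ n) z := by
  have hC : 0 ≤ C := le_trans (by positivity) (hc 1 le_rfl)
  obtain ⟨ρ, hρ1, hρ2⟩ := exists_between hz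
  have hρ0 : 0 < ρ := lt_of_le_of_lt (norm_nonneg _) hρ1
  have hu : Summable (fun n : ℕ => C / R * (ρ / R) ^ n) :=
    (summable_geometric_of_lt_one (by positivity) ((div_lt_one hR).2 hρ2)).mul_left _
  have hb : ∀ (n : ℕ) (y : ℂ), y ∈ Metric.ball (0 : ℂ) ρ → ‖c (n + 1) * y ^ n‖ ≤ C / R * (ρ / R) ^ n := by
    intro n y hy
    rw [mem_ball_zero_iff] at hy
    have h1 := hc (n + 1) (by omega)
    rw [norm_mul, norm_pow, div_pow, div_mul_div_comm, le_div_iff₀ (by positivity)]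
    calc ‖c (n + 1)‖ * ‖y‖ ^ n * (R * R ^ n) = (‖c (n + 1)‖ * R ^ (n + 1)) * ‖y‖ ^ n := by ring
      _ ≤ C * ρ ^ n := by gcongr
  have h0 : ∀ (n : ℕ) (y : ℂ), y ∈ Metric.ball (0 : ℂ) ρ →
      HasDerivAt (fun z : ℂ => c (n + 1) / (n + 1 : ℂ) * z ^ (n + 1)) (c (n + 1) * y ^ n) y := by
    intro n y _
    have h1 := (hasDerivAt_pow (n + 1) y).const_mul (c (n + 1) / (n + 1 : ℂ))
    have h2 : c (n + 1) / (n + 1 : ℂ) * (((n + 1 : ℕ) : ℂ) * y ^ (n + 1 - 1)) = c (n + 1) * y ^ n := by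
      have h3 : (n + 1 : ℂ) ≠ 0 := by exact_mod_cast Nat.succ_ne_zero n
      rw [Nat.add_sub_cancel]
      push_cast
      field_simp
    rw [h2] at h1
    exact h1
  refine hasDerivAt_tsum_of_isPreconnected (t := Metric.ball (0 : ℂ) ρ) (y₀ := 0) hu
    Metric.isOpen_ball (convex_ball _ _).isPreconnected h0 hb ?_ ?_ ?_
  · rw [mem_ball_zero_iff, norm_zero]; exact hρ0
  · have h3 : (fun n : ℕ => c (n + 1) / (n + 1 : ℂ) * (0 : ℂ) ^ (n + 1)) = fun _ => 0 := by
      funext n; rw [zero_pow (by omega), mul_zero]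
    rw [h3]; exact summable_zero
  · rwa [mem_ball_zero_iff]

lemma summable_ser {c : ℕ → ℂ} {R : ℝ} (hR : 0 < R) {C : ℝ}
    (hc : ∀ n, 1 ≤ n → ‖c n‖ * R ^ n ≤ C) {z : ℂ} (hz : ‖z‖ < R) :
    Summable fun n : ℕ => ‖c (n + 1) * z ^ n‖ := by
  have h1 : Summable (fun n : ℕ => C / R * (‖z‖ / R) ^ n) :=
    (summable_geometric_of_lt_one (by positivity) ((div_lt_one hR).2 hz)).mul_left _
  refine Summable.of_nonneg_of_le (fun _ => norm_nonneg _) (fun n => ?_) h1
  have h2 := hc (n + 1) (by omega)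
  rw [norm_mul, norm_pow, div_pow, div_mul_div_comm, le_div_iff₀ (by positivity)]
  calc ‖c (n + 1)‖ * ‖z‖ ^ n * (R * R ^ n) = (‖c (n + 1)‖ * R ^ (n + 1)) * ‖z‖ ^ n := by ring
    _ ≤ C * ‖z‖ ^ n := by gcongr

lemma summable_ser' {B : ℕ → ℂ} {R : ℝ} (hR : 0 < R) {C : ℝ}
    (hB : ∀ n, 1 ≤ n → n * ‖B n‖ * R ^ n ≤ C) {z : ℂ} (hz : ‖z‖ < R) :
    Summable fun n : ℕ => ‖B n * z ^ n‖ := by
  have hC : 0 ≤ C := le_trans (by positivity) (hB 1 le_rfl)
  have h1 : Summable (fun n : ℕ => (C + ‖B 0‖) * (‖z‖ / R) ^ n) :=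
    (summable_geometric_of_lt_one (by positivity) ((div_lt_one hR).2 hz)).mul_left _
  refine Summable.of_nonneg_of_le (fun _ => norm_nonneg _) (fun n => ?_) h1
  rw [norm_mul, norm_pow, div_pow]
  have h3 : ‖B n‖ * R ^ n ≤ C + ‖B 0‖ := by
    rcases Nat.eq_zero_or_pos n with h0 | h0
    · subst h0
      simpa using hC
    · have h4 : (1 : ℝ) ≤ n := by exact_mod_cast h0
      have h5 : 0 ≤ ‖B n‖ * R ^ n := by positivity
      have := hB n h0
      have h6 := norm_nonneg (B 0)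
      nlinarith
  calc ‖B n‖ * ‖z‖ ^ n = (‖B n‖ * R ^ n) * (‖z‖ ^ n / R ^ n) := by
        field_simp
    _ ≤ _ := by gcongr

/-- the exponential of a power series -/
theorem exp_series {T B : ℕ → ℂ} {R C : ℝ} (hR : 0 < R)
    (hT : ∀ n, 1 ≤ n → ‖T n‖ * R ^ n ≤ C) (hB : ∀ n, 1 ≤ n → n * ‖B n‖ * R ^ n ≤ C)
    (hB0 : B 0 = 1) (hrec : ∀ n : ℕ, (n : ℂ) * B n = -∑ m ∈ Icc 1 n, B (n - m) * T m)
    {x : ℂ} (hx : ‖x‖ < R) :
    Complex.exp (-∑' n : ℕ, T (n + 1) / (n + 1 : ℂ) * x ^ (n + 1)) = ∑' n : ℕ, B n * x ^ n := by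
  set ψ : ℂ → ℂ := fun z => ∑' n : ℕ, T (n + 1) / (n + 1 : ℂ) * z ^ (n + 1) with hψ
  set v : ℂ → ℂ := fun z => ∑' n : ℕ, B n * z ^ n with hv
  have hc : ∀ n : ℕ, 1 ≤ n → ‖(n : ℂ) * B n‖ * R ^ n ≤ C := by
    intro n hn
    rw [norm_mul, Complex.norm_natCast]
    exact hB n hn
  have hsB : ∀ z : ℂ, ‖z‖ < R → Summable fun n : ℕ => ‖B n * z ^ n‖ :=
    fun z hz => summable_ser' hR hB hz
  have hv1 : ∀ z : ℂ, ‖z‖ < R → v z = 1 + ∑' n : ℕ, ((n + 1 : ℕ) : ℂ) * B (n + 1) / (n + 1 : ℂ) *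
      z ^ (n + 1) := by
    intro z hz
    rw [hv]
    simp only
    rw [(hsB z hz).of_norm.tsum_eq_zero_add, hB0]
    congr 1
    · simp
    · refine tsum_congr fun n => ?_
      have h3 : (n + 1 : ℂ) ≠ 0 := by exact_mod_cast Nat.succ_ne_zero n
      push_cast
      field_simp
  have hv2 : ∀ z : ℂ, ‖z‖ < R → HasDerivAt v (∑' n : ℕ, ((n + 1 : ℕ) : ℂ) * B (n + 1) * z ^ n) z := by
    intro z hz
    have h1 := (hasDerivAt_ser (c := fun n => (n : ℂ) * B n) hR hc hz).const_add 1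
    refine h1.congr_of_eventuallyEq ?_
    have hop : ∀ᶠ y : ℂ in 𝓝 z, ‖y‖ < R := continuous_norm.continuousAt.eventually_lt_const hz
    filter_upwards [hop] with y hy
    exact hv1 y hy
  have hψ2 : ∀ z : ℂ, ‖z‖ < R → HasDerivAt ψ (∑' n : ℕ, T (n + 1) * z ^ n) z :=
    fun z hz => hasDerivAt_ser hR hT hz
  have hzero : ∀ z : ℂ, ‖z‖ < R → (∑' n : ℕ, ((n + 1 : ℕ) : ℂ) * B (n + 1) * z ^ n) +
      v z * (∑' n : ℕ, T (n + 1) * z ^ n) = 0 := by
    intro z hz
    rw [hv]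
    simp only
    rw [tsum_mul_tsum_eq_tsum_sum_antidiagonal_of_summable_norm (hsB z hz) (summable_ser hR hT hz),
      ← (summable_ser (c := fun n => (n : ℂ) * B n) hR hc hz).of_norm.tsum_add
      (summable_norm_sum_mul_antidiagonal_of_summable_norm (hsB z hz)
        (summable_ser hR hT hz)).of_norm]
    have h1 : ∀ n : ℕ, ((n + 1 : ℕ) : ℂ) * B (n + 1) * z ^ n +
        ∑ kl ∈ antidiagonal n, B kl.1 * z ^ kl.1 * (T (kl.2 + 1) * z ^ kl.2) = 0 := by
      intro n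
      rw [hrec (n + 1)]
      have h2 : ∑ kl ∈ antidiagonal n, B kl.1 * z ^ kl.1 * (T (kl.2 + 1) * z ^ kl.2) =
          (∑ m ∈ Icc 1 (n + 1), B (n + 1 - m) * T m) * z ^ n := by
        rw [Nat.sum_antidiagonal_eq_sum_range_succ_mk, sum_mul]
        refine sum_bij' (fun j _ => n + 1 - j) (fun m _ => n + 1 - m) ?_ ?_ ?_ ?_ ?_
        · intro j hj
          rw [mem_range] at hj
          rw [mem_Icc]
          omega
        · intro m hm
          rw [mem_Icc] at hm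
          rw [mem_range]
          omega
        · intro j hj
          rw [mem_range] at hj
          omega
        · intro m hm
          rw [mem_Icc] at hm
          omega
        · intro j hj
          rw [mem_range] at hj
          have e1 : n + 1 - (n + 1 - j) = j := by omega
          have e2 : n - j + 1 = n + 1 - j := by omega
          have e3 : z ^ n = z ^ j * z ^ (n - j) := by
            rw [← pow_add]
            congr 1
            omega
          simp only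
          rw [e1, e2, e3]
          ring
      rw [h2]
      ring
    rw [tsum_congr h1, tsum_zero]
  have hd : ∀ z : ℂ, ‖z‖ < R → HasDerivAt (fun z => v z * Complex.exp (ψ z)) 0 z := by
    intro z hz
    have h1 := (hv2 z hz).mul (hψ2 z hz).cexp
    have h2 : (∑' n : ℕ, ((n + 1 : ℕ) : ℂ) * B (n + 1) * z ^ n) * Complex.exp (ψ z) +
        v z * (Complex.exp (ψ z) * ∑' n : ℕ, T (n + 1) * z ^ n) = 0 := by
      have := hzero z hz
      linear_combination Complex.exp (ψ z) * this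
    rw [h2] at h1
    exact h1
  have hconst : v x * Complex.exp (ψ x) = v 0 * Complex.exp (ψ 0) := by
    refine IsOpen.is_const_of_deriv_eq_zero (s := Metric.ball (0 : ℂ) R)
      (f := fun z => v z * Complex.exp (ψ z)) Metric.isOpen_ball
      (convex_ball _ _).isPreconnected (fun z hz => ?_) (fun z hz => ?_) ?_ ?_
    · rw [mem_ball_zero_iff] at hz
      exact (hd z hz).differentiableAt.differentiableWithinAt
    · rw [mem_ball_zero_iff] at hz
      exact (hd z hz).deriv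
    · rwa [mem_ball_zero_iff]
    · rw [mem_ball_zero_iff, norm_zero]
      exact hR
  have h0 : v 0 * Complex.exp (ψ 0) = 1 := by
    have h1 : ψ 0 = 0 := by
      rw [hψ]
      simp
    have h2 : v 0 = 1 := by
      rw [hv1 0 (by rw [norm_zero]; exact hR)]
      simp
    rw [h1, h2, Complex.exp_zero, one_mul]
  rw [h0] at hconst
  rw [Complex.exp_neg]
  exact (eq_inv_of_mul_eq_one_left hconst).symm

end Pool.Agent.P8H9.AV
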