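import Pool.Agent.P8H9.AV.Van
import Pool.Agent.P8H9.AV.Ser
import Pool.Agent.H341R2.CurveFacts

/-! The local factor at a good prime as a power series. -/

set_option autoImplicit false

namespace Pool.Agent.P8H9.AV

open Polynomial Finset Pool.Agent.H341R2 Pool.Agent.H341R2.Sharp

section bounds

variable {F : Type*} [Field F] [Fintype F] [DecidableEq F]

omit [Fintype F] [DecidableEq F] in
theorem odd_ne_sq {g : F[X]} (hodd : Odd g.natDegree) (c : F) (h : F[X]) : g ≠ C c * h ^ 2 := by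
  intro hgh
  rcases eq_or_ne c 0 with hc | hc
  · rw [hc] at hgh
    rw [hgh] at hodd
    simp at hodd
  · rw [hgh, natDegree_C_mul hc, natDegree_pow] at hodd
    rw [← Nat.not_even_iff_odd] at hodd
    exact hodd (even_two_mul _)

/-- the real square root of the order of the field -/
noncomputable def sq (F : Type*) [Fintype F] : ℝ := Real.sqrt (Fintype.card F)

omit [DecidableEq F] in
theorem sq_pos : 0 < sq F := Real.sqrt_pos.2 (by exact_mod_cast Fintype.card_pos)

theorem T_bd (hF : ringChar F ≠ 2) {g : F[X]} (hg : g.Monic) (hodd : Odd g.natDegree) (m : ℕ)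
    (hm : 1 ≤ m) : |(T g m : ℝ)| ≤ (5 * g.natDegree : ℕ) * sq F ^ m := by
  have := (T_bound hF hg hodd.pos (odd_ne_sq hodd) m hm).1
  push_cast
  exact this

theorem Bc_bd (hF : ringChar F ≠ 2) {g : F[X]} (hg : g.Monic) (hodd : Odd g.natDegree) (n : ℕ) :
    |(Bc g n : ℝ)| ≤ ((n + 5 * g.natDegree).choose (5 * g.natDegree) : ℝ) * sq F ^ n :=
  Bc_bound g (5 * g.natDegree) (sq F) sq_pos.le (T_bd hF hg hodd) n

/-- summability -/
theorem summable_ch (K : ℕ) {y : ℝ} (h0 : 0 ≤ y) (h1 : y < 1) :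
    Summable fun n : ℕ => ((n + K).choose K : ℝ) * y ^ n :=
  summable_choose_mul_geometric_of_norm_lt_one (R := ℝ) K (by rwa [Real.norm_of_nonneg h0])

theorem summable_ch' (K j : ℕ) {y : ℝ} (h0 : 0 < y) (h1 : y < 1) :
    Summable fun n : ℕ => ((n + j + K).choose K : ℝ) * y ^ n := by
  have h2 := (summable_nat_add_iff j).2 (summable_ch K h0.le h1)
  have h3 := h2.mul_right (y ^ j)⁻¹
  refine h3.congr fun n => ?_
  rw [pow_add]
  have : y ^ j ≠ 0 := (pow_pos h0 j).ne'
  field_simp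

/-- bounded coefficients -/
theorem exists_C (K : ℕ) {y : ℝ} (h0 : 0 ≤ y) (h1 : y < 1) :
    ∃ C : ℝ, 0 ≤ C ∧ ∀ n : ℕ, (n : ℝ) * ((n + K).choose K : ℝ) * y ^ n ≤ C := by
  have h2 := summable_ch (K + 1) h0 h1
  refine ⟨(K + 1) * ∑' n : ℕ, ((n + (K + 1)).choose (K + 1) : ℝ) * y ^ n, by positivity, fun n => ?_⟩
  have h3 : ((n + (K + 1)).choose (K + 1) : ℝ) * y ^ n ≤
      ∑' n : ℕ, ((n + (K + 1)).choose (K + 1) : ℝ) * y ^ n :=
    h2.le_tsum n fun _ _ => by positivity
  have h4 : (n : ℝ) * ((n + K).choose K : ℝ) ≤ (K + 1) * ((n + (K + 1)).choose (K + 1) : ℝ) := by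
    have h5 := Nat.add_one_mul_choose_eq (n + K) K
    have h6 : ((n + K + 1 : ℕ) : ℝ) * ((n + K).choose K : ℝ) =
        ((n + K + 1).choose (K + 1) : ℝ) * ((K + 1 : ℕ) : ℝ) := by exact_mod_cast h5
    have h7 : n + (K + 1) = n + K + 1 := by ring
    rw [h7]
    push_cast at h6
    have h8 : (0 : ℝ) ≤ ((n + K).choose K : ℝ) := by positivity
    nlinarith
  calc (n : ℝ) * ((n + K).choose K : ℝ) * y ^ n
      ≤ (K + 1) * ((n + (K + 1)).choose (K + 1) : ℝ) * y ^ n :=
        mul_le_mul_of_nonneg_right h4 (pow_nonneg h0 n)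
    _ = (K + 1) * (((n + (K + 1)).choose (K + 1) : ℝ) * y ^ n) := by ring
    _ ≤ _ := mul_le_mul_of_nonneg_left h3 (by positivity)

/-- the local series as an exponential -/
theorem exp_local (hF : ringChar F ≠ 2) {g : F[X]} (hg : g.Monic) (hodd : Odd g.natDegree)
    {x : ℂ} (hx : sq F * ‖x‖ < 1) :
    Complex.exp (-∑' n : ℕ, (T g (n + 1) : ℂ) / (n + 1 : ℂ) * x ^ (n + 1)) =
      ∑' n : ℕ, (Bc g n : ℂ) * x ^ n := by
  have hs := sq_pos (F := F)
  set K := 5 * g.natDegree with hK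
  have hx' : ‖x‖ < 1 / sq F := by
    rw [lt_div_iff₀ hs, mul_comm]
    exact hx
  obtain ⟨R, hR1, hR2⟩ := exists_between hx'
  have hR0 : 0 < R := lt_of_le_of_lt (norm_nonneg _) hR1
  have hy1 : sq F * R < 1 := by
    rw [lt_div_iff₀ hs, mul_comm] at hR2
    exact hR2
  have hy0 : 0 ≤ sq F * R := by positivity
  obtain ⟨C, hC0, hC⟩ := exists_C K hy0 hy1
  refine exp_series (T := fun n => (T g n : ℂ)) (B := fun n => (Bc g n : ℂ)) (R := R)
    (C := C + K) hR0 (fun n hn => ?_) (fun n hn => ?_) ?_ (fun n => ?_) hR1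
  · rw [Complex.norm_intCast]
    have h1 := T_bd hF hg hodd n hn
    calc |(T g n : ℝ)| * R ^ n ≤ (K * sq F ^ n) * R ^ n := by gcongr
      _ = K * (sq F * R) ^ n := by rw [mul_pow]; ring
      _ ≤ K * 1 := by
        gcongr
        exact pow_le_one₀ hy0 hy1.le
      _ ≤ C + K := by linarith
  · rw [Complex.norm_intCast]
    have h1 := Bc_bd hF hg hodd n
    calc (n : ℝ) * |(Bc g n : ℝ)| * R ^ n ≤ n * (((n + K).choose K : ℝ) * sq F ^ n) * R ^ n := by
          gcongr
      _ = n * ((n + K).choose K : ℝ) * (sq F * R) ^ n := by rw [mul_pow]; ring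
      _ ≤ C := hC n
      _ ≤ C + K := by
        have : (0 : ℝ) ≤ K := by positivity
        linarith
  · rw [Bc_zero]
    simp
  · have := Bc_rec g n
    exact_mod_cast this

theorem summable_local (hF : ringChar F ≠ 2) {g : F[X]} (hg : g.Monic) (hodd : Odd g.natDegree)
    {x : ℂ} (hx : sq F * ‖x‖ < 1) : Summable fun n : ℕ => ‖(Bc g n : ℂ) * x ^ n‖ := by
  have hs := sq_pos (F := F)
  refine Summable.of_nonneg_of_le (fun _ => norm_nonneg _) (fun n => ?_)
    (summable_ch (5 * g.natDegree) (y := sq F * ‖x‖) (by positivity) hx)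
  rw [norm_mul, norm_pow, Complex.norm_intCast]
  calc |(Bc g n : ℝ)| * ‖x‖ ^ n
      ≤ (((n + 5 * g.natDegree).choose (5 * g.natDegree) : ℝ) * sq F ^ n) * ‖x‖ ^ n :=
        mul_le_mul_of_nonneg_right (Bc_bd hF hg hodd n) (by positivity)
    _ = _ := by rw [mul_pow]; ring

end bounds

section good

variable {f : ℤ[X]} {p : Nat.Primes}

/-- reduction modulo `p` -/
noncomputable def red (f : ℤ[X]) (p : ℕ) : (ZMod p)[X] := f.map (Int.castRingHom (ZMod p))

theorem red_monic (hf : f.Monic) (q : ℕ) : (red f q).Monic := hf.map _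

theorem red_natDegree (hf : f.Monic) (q : ℕ) [Fact q.Prime] : (red f q).natDegree = f.natDegree :=
  hf.natDegree_map _

open Classical in
theorem traceH1_T (h : GoodPrime f 1 p) (hodd : Odd f.natDegree) (m : ℕ) (hm : m ≠ 0) :
    haveI : Fact (p : ℕ).Prime := ⟨p.2⟩
    traceH1 f 1 p m = -Sharp.T (red f p) m := by
  have : Fact (p : ℕ).Prime := ⟨p.2⟩
  let _ : Fintype (GaloisField p m) := Fintype.ofFinite _
  have hF : ringChar (ZMod p) ≠ 2 := by
    rw [ZMod.ringChar_zmod_n]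
    exact h.ne_two
  rw [traceH1_eq h m hm, legendreSym.at_one, one_pow, one_mul, charInf, if_pos hodd, add_zero]
  have h1 := T_eq_sum (E := GaloisField p m) hF (red f p)
  rw [GaloisField.finrank p hm] at h1
  rw [h1, charS]
  congr 1
  refine sum_congr rfl fun x _ => ?_
  congr 1
  rw [red, aeval_def, aeval_def, eval₂_map]
  congr 1

open Classical in
theorem goodFactor_eq (h : GoodPrime f 1 p) (hf : f.Monic) (hodd : Odd f.natDegree) {s : ℂ}
    (hs : 1 / 2 < s.re) :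
    haveI : Fact (p : ℕ).Prime := ⟨p.2⟩
    goodFactor 1 1 f 1 p s = ∑' n : ℕ, (Bc (red f p) n : ℂ) * (((p : ℕ) : ℂ) ^ (-s)) ^ n := by
  have : Fact (p : ℕ).Prime := ⟨p.2⟩
  have hF : ringChar (ZMod p) ≠ 2 := by
    rw [ZMod.ringChar_zmod_n]
    exact h.ne_two
  have hp : (1 : ℝ) < p := by exact_mod_cast p.2.one_lt
  have hx : sq (ZMod p) * ‖((p : ℕ) : ℂ) ^ (-s)‖ < 1 := by
    rw [Complex.norm_natCast_cpow_of_pos p.2.pos, Complex.neg_re, sq, ZMod.card,
      Real.sqrt_eq_rpow, ← Real.rpow_add (by linarith)]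
    exact Real.rpow_lt_one_of_one_lt_of_neg hp (by linarith)
  rw [← exp_local hF (red_monic hf p) (by rw [red_natDegree hf]; exact hodd) hx, goodFactor,
    ← tsum_neg]
  congr 1
  refine tsum_congr fun m => ?_
  have h1 : traceH 1 1 f 1 p (m + 1) = traceH1 f 1 p (m + 1) := by
    rw [traceH, pow_one, coeff_add, coeff_add, coeff_C_mul, coeff_C_mul, coeff_X_pow, coeff_one,
      coeff_X_one]
    simp
  rw [h1, traceH1_T h hodd (m + 1) (Nat.succ_ne_zero m)]
  have h2 : ((p : ℕ) : ℂ) ^ (-((m + 1 : ℂ) * s)) = (((p : ℕ) : ℂ) ^ (-s)) ^ (m + 1) := by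
    rw [← Complex.cpow_nat_mul]
    congr 1
    push_cast
    ring
  rw [h2]
  push_cast
  ring1

end good

end Pool.Agent.P8H9.AV
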