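import Pool.Agent.P8H9.AV.Tail

/-! The mean of the `L`-functions. -/

set_option autoImplicit false

open Finset Filter Topology Polynomial

namespace Pool.Agent.P8H9.AV

open Pool.Agent.H341R2 Pool.Agent.H341R2.Sharp

theorem fp (p : Nat.Primes) : Fact (p : ℕ).Prime := ⟨p.2⟩

attribute [local instance] fp

theorem nz (p : Nat.Primes) : NeZero (p : ℕ) := ⟨p.2.ne_zero⟩

/-- the Euler factor as a function on `(ℤ/p)^k` -/
noncomputable def gp (f : ℤ[X]) (k : ℕ) (s : ℂ) (p : Nat.Primes) (a : Fin k → ZMod p) : ℂ :=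
  if (p : ℕ) = 2 then 1 else ell (fam (red f p) a) (((p : ℕ) : ℂ) ^ (-s))

/-- the local mean -/
noncomputable def Ep (f : ℤ[X]) (k : ℕ) (p : Nat.Primes) (s : ℂ) : ℂ :=
  (∑ a : Fin k → ZMod p, gp f k s p a) / ((p : ℕ) : ℂ) ^ k

variable {f : ℤ[X]} {k : ℕ}

theorem member_monic (hf : f.Monic) (hk : k ≤ f.natDegree) (c : Fin k → ℤ) :
    (member f c).Monic ∧ (member f c).natDegree = f.natDegree := by
  have h1 : (∑ j : Fin k, C (c j) * X ^ (j : ℕ) : ℤ[X]).degree < f.degree := by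
    rw [degree_eq_natDegree hf.ne_zero]
    exact lt_of_lt_of_le (degree_sum_fin_lt c) (Nat.cast_le.2 hk)
  exact ⟨hf.add_of_left h1, natDegree_add_eq_left_of_degree_lt h1⟩

theorem red_member (f : ℤ[X]) (c : Fin k → ℤ) (p : Nat.Primes) :
    red (member f c) p = fam (red f p) fun j => (c j : ZMod p) := by
  unfold red member fam
  rw [Polynomial.map_add, Polynomial.map_sum]
  congr 1
  refine sum_congr rfl fun j _ => ?_
  simp

theorem odd_ringChar {p : Nat.Primes} (h2 : (p : ℕ) ≠ 2) : ringChar (ZMod p) ≠ 2 := by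
  rwa [ZMod.ringChar_zmod_n]

theorem good_iff (hf : f.Monic) (p : Nat.Primes) :
    GoodPrime f 1 p ↔ (p : ℕ) ≠ 2 ∧ (red f p).Separable := by
  unfold GoodPrime red
  rw [hf.leadingCoeff]
  refine and_congr_left fun _ => not_congr ?_
  have h1 : (2 * 1 * 1 : ℤ) = ((2 : ℕ) : ℤ) := by norm_num
  rw [h1, Int.natCast_dvd_natCast, Nat.prime_dvd_prime_iff_eq p.2 Nat.prime_two]

theorem factor_eq (hf : f.Monic) (hodd : Odd f.natDegree) (hk : k ≤ f.natDegree) (c : Fin k → ℤ)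
    (p : Nat.Primes) {s : ℂ} (hs : 1 / 2 < s.re) :
    eulerFactor (member f c) p s = gp f k s p fun j => (c j : ZMod p) := by
  obtain ⟨hm, hd⟩ := member_monic hf hk c
  unfold eulerFactor gp
  by_cases h2 : (p : ℕ) = 2
  · rw [if_pos h2, if_neg]
    rw [good_iff hm]
    exact fun h => h.1 h2
  · rw [if_neg h2, ell, ← red_member]
    by_cases h3 : (red (member f c) p).Separable
    · have hg : GoodPrime (member f c) 1 p := (good_iff hm p).2 ⟨h2, h3⟩
      rw [if_pos h3, if_pos hg, goodFactor_eq hg hm (by rwa [hd]) hs]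
    · rw [if_neg h3, if_neg]
      rw [good_iff hm]
      exact fun h => h3 h.2

theorem size (p : Nat.Primes) (s : ℂ) :
    sq (ZMod p) * ‖((p : ℕ) : ℂ) ^ (-s)‖ = ((p : ℕ) : ℝ) ^ (1 / 2 - s.re) := by
  have hp : (0 : ℝ) < p := by exact_mod_cast p.2.pos
  rw [Complex.norm_natCast_cpow_of_pos p.2.pos, Complex.neg_re, sq, ZMod.card,
    Real.sqrt_eq_rpow, ← Real.rpow_add hp, sub_eq_add_neg]

theorem size_le (p : Nat.Primes) {s : ℂ} {σ : ℝ} (hs : σ ≤ s.re) :
    sq (ZMod p) * ‖((p : ℕ) : ℂ) ^ (-s)‖ ≤ ((p : ℕ) : ℝ) ^ (1 / 2 - σ) := by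
  rw [size]
  exact Real.rpow_le_rpow_of_exponent_le (by exact_mod_cast p.2.one_lt.le) (by linarith)

theorem pow_le_two (p : Nat.Primes) {σ : ℝ} (hσ : 1 / 2 < σ) :
    ((p : ℕ) : ℝ) ^ (1 / 2 - σ) ≤ (2 : ℝ) ^ (1 / 2 - σ) :=
  Real.rpow_le_rpow_of_nonpos (by norm_num) (by exact_mod_cast p.2.two_le) (by linarith)

theorem y₀_bounds {σ : ℝ} (hσ : 1 / 2 < σ) :
    0 < (2 : ℝ) ^ (1 / 2 - σ) ∧ (2 : ℝ) ^ (1 / 2 - σ) < 1 :=
  ⟨by positivity, Real.rpow_lt_one_of_one_lt_of_neg (by norm_num) (by linarith)⟩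

theorem red_fam (hf : f.Monic) (hodd : Odd f.natDegree) (hk : k ≤ f.natDegree) (p : Nat.Primes)
    (a : Fin k → ZMod p) : (fam (red f p) a).Monic ∧ Odd (fam (red f p) a).natDegree ∧
      (fam (red f p) a).natDegree = f.natDegree := by
  have h1 := red_natDegree hf p
  obtain ⟨h2, h3⟩ := fam_monic (red_monic hf p) (by rwa [h1]) a
  rw [h1] at h3
  exact ⟨h2, by rwa [h3], h3⟩

/-- size of the Euler factors -/
theorem gp_sub_one (hf : f.Monic) (hodd : Odd f.natDegree) (hk : k ≤ f.natDegree)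
    (p : Nat.Primes) (a : Fin k → ZMod p) {σ : ℝ} (hσ : 1 / 2 < σ) {s : ℂ} (hs : σ ≤ s.re) :
    ‖gp f k s p a - 1‖ ≤ Sc (5 * f.natDegree) 1 ((2 : ℝ) ^ (1 / 2 - σ)) *
      ((p : ℕ) : ℝ) ^ (1 / 2 - σ) := by
  obtain ⟨hy0, hy1⟩ := y₀_bounds hσ
  have hS := Sc_nonneg (5 * f.natDegree) 1 hy0
  unfold gp
  split_ifs with h2
  · rw [sub_self, norm_zero]
    positivity
  · obtain ⟨h3, h4, h5⟩ := red_fam hf hodd hk p a
    have h6 := ell_sub_one (odd_ringChar h2) h3 h4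
      ((size_le p hs).trans (pow_le_two p hσ)) hy0 hy1
    rw [h5] at h6
    exact h6.trans (mul_le_mul_of_nonneg_left (size_le p hs) hS)

theorem Ep_sub_one_le (p : Nat.Primes) (s : ℂ) (B : ℝ)
    (h : ∀ a : Fin k → ZMod p, ‖gp f k s p a - 1‖ ≤ B) : ‖Ep f k p s - 1‖ ≤ B := by
  have hp : (0 : ℝ) < ((p : ℕ) : ℝ) ^ k := by
    have : (0 : ℝ) < p := by exact_mod_cast p.2.pos
    positivity
  have hp' : ((p : ℕ) : ℂ) ^ k ≠ 0 := pow_ne_zero _ (by exact_mod_cast p.2.ne_zero)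
  have h1 : Ep f k p s - 1 = (∑ a : Fin k → ZMod p, (gp f k s p a - 1)) / ((p : ℕ) : ℂ) ^ k := by
    unfold Ep
    rw [sum_sub_distrib, sum_const, card_univ, Fintype.card_fun, Fintype.card_fin, ZMod.card,
      nsmul_one, sub_div]
    congr 1
    push_cast
    rw [div_self hp']
  rw [h1, norm_div, norm_pow, Complex.norm_natCast, div_le_iff₀ hp]
  refine (norm_sum_le _ _).trans ((sum_le_card_nsmul _ _ B fun a _ => h a).trans_eq ?_)
  rw [card_univ, Fintype.card_fun, Fintype.card_fin, ZMod.card, nsmul_eq_mul, mul_comm]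
  push_cast
  rfl

open Classical in
theorem bad_count (hf : f.Monic) (hk1 : 1 ≤ k) (hk : k ≤ f.natDegree) (p : Nat.Primes) :
    ((univ.filter fun a : Fin k → ZMod p => ¬ (fam (red f p) a).Separable).card : ℝ) *
      Fintype.card (ZMod p) ≤ f.natDegree * (Fintype.card (ZMod p) : ℝ) ^ k := by
  have h1 := fam_bad (red_monic hf p) hk1 (by rwa [red_natDegree hf p])
  have h3 : (univ.filter fun a : Fin k → ZMod p => ¬ (fam (red f p) a).Separable).card *
      Fintype.card (ZMod p) ≤ f.natDegree * (Fintype.card (ZMod p)) ^ k := by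
    refine h1.trans (Nat.mul_le_mul_right _ ?_)
    rw [red_natDegree hf p]
    split_ifs with h
    · rw [ZMod.card]
      rw [ZMod.natCast_eq_zero_iff] at h
      exact Nat.le_of_dvd (by omega) h
    · exact le_rfl
  exact_mod_cast h3

/-- the bound for the local mean -/
noncomputable def UB (d k : ℕ) (σ : ℝ) (p : Nat.Primes) : ℝ :=
  d * Sc (5 * d) 1 ((2 : ℝ) ^ (1 / 2 - σ)) * ((p : ℕ) : ℝ) ^ (-1 + (1 / 2 - σ)) +
    Sc (5 * d) (k + 1) ((2 : ℝ) ^ (1 / 2 - σ)) * ((p : ℕ) : ℝ) ^ ((k + 1 : ℝ) * (1 / 2 - σ))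

theorem Ep_sub_one (hf : f.Monic) (hodd : Odd f.natDegree) (hk1 : 1 ≤ k) (hk : k ≤ f.natDegree)
    (p : Nat.Primes) {σ : ℝ} (hσ : 1 / 2 < σ) {s : ℂ} (hs : σ ≤ s.re) :
    ‖Ep f k p s - 1‖ ≤ UB f.natDegree k σ p := by
  classical
  obtain ⟨hy0, hy1⟩ := y₀_bounds hσ
  have hS := Sc_nonneg (5 * f.natDegree) 1 hy0
  have hS' := Sc_nonneg (5 * f.natDegree) (k + 1) hy0
  have hp0 : (0 : ℝ) < p := by exact_mod_cast p.2.pos
  unfold UB
  by_cases h2 : (p : ℕ) = 2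
  · have h3 : ‖Ep f k p s - 1‖ ≤ 0 := Ep_sub_one_le p s 0 fun a => by
      rw [gp, if_pos h2, sub_self, norm_zero]
    exact h3.trans (by positivity)
  · have h3 := Eavg_sub_one (odd_ringChar h2) (red_monic hf p)
      (by rw [red_natDegree hf p]; exact hodd) hk1 (by rwa [red_natDegree hf p]) f.natDegree
      (bad_count hf hk1 hk p) ((size_le p hs).trans (pow_le_two p hσ)) hy0 hy1
    rw [red_natDegree hf p] at h3
    have h4 : Ep f k p s = Eavg (red f p) k (((p : ℕ) : ℂ) ^ (-s)) := by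
      unfold Ep Eavg gp
      rw [ZMod.card]
      simp_rw [if_neg h2]
    rw [h4]
    refine h3.trans (add_le_add ?_ ?_)
    · rw [ZMod.card, Real.rpow_add hp0, Real.rpow_neg_one]
      calc (f.natDegree : ℝ) / p * (Sc (5 * f.natDegree) 1 ((2 : ℝ) ^ (1 / 2 - σ)) *
            (sq (ZMod p) * ‖((p : ℕ) : ℂ) ^ (-s)‖))
          ≤ (f.natDegree : ℝ) / p * (Sc (5 * f.natDegree) 1 ((2 : ℝ) ^ (1 / 2 - σ)) *
            ((p : ℕ) : ℝ) ^ (1 / 2 - σ)) := by
            gcongr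
            exact size_le p hs
        _ = _ := by
          rw [div_eq_mul_inv]
          ring
    · have h5 : ((p : ℕ) : ℝ) ^ ((k + 1 : ℝ) * (1 / 2 - σ)) =
          (((p : ℕ) : ℝ) ^ (1 / 2 - σ)) ^ (k + 1) := by
        rw [mul_comm, Real.rpow_mul hp0.le, ← Real.rpow_natCast]
        push_cast
        rfl
      rw [h5]
      gcongr
      · have := sq_pos (F := ZMod p)
        positivity
      · exact size_le p hs

theorem UB_summable (d : ℕ) {σ : ℝ} (hσ : 1 / 2 + 1 / (k + 1 : ℝ) < σ) :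
    Summable (UB d k σ) := by
  unfold UB
  have hk : (0 : ℝ) < k + 1 := by positivity
  have h0 : 0 < 1 / (k + 1 : ℝ) := by positivity
  refine Summable.add (Summable.mul_left _ ?_) (Summable.mul_left _ ?_)
  · refine Nat.Primes.summable_rpow.2 ?_
    linarith
  · refine Nat.Primes.summable_rpow.2 ?_
    have h1 : 1 / (k + 1 : ℝ) < σ - 1 / 2 := by linarith
    rw [div_lt_iff₀ hk] at h1
    nlinarith

end Pool.Agent.P8H9.AV
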