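import Pool.Agent.P8H9.AV.Defs

/-! Means of periodic functions. -/

set_option autoImplicit false

open Finset Filter Topology

namespace Pool.Agent.P8H9.AV

/-- number of integers in `[-H, H]` in a residue class -/
noncomputable def NH (Q H : ℕ) (a : ZMod Q) : ℕ :=
  ((Icc (-(H : ℤ)) H).filter fun x : ℤ => (x : ZMod Q) = a).card

theorem NH_bound (Q H : ℕ) (hQ : 0 < Q) (a : ZMod Q) :
    |(NH Q H a : ℝ) - (2 * H + 1) / Q| ≤ 1 := by
  obtain ⟨v, rfl⟩ := ZMod.intCast_surjective a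
  have h1 : (Icc (-(H : ℤ)) H).filter (fun x : ℤ => (x : ZMod Q) = (v : ZMod Q)) =
      (Ico (-(H : ℤ)) (H + 1)).filter (fun x : ℤ => x ≡ v [ZMOD (Q : ℤ)]) := by
    ext x
    rw [mem_filter, mem_filter, mem_Icc, mem_Ico, ZMod.intCast_eq_intCast_iff]
    constructor
    · rintro ⟨⟨h1, h2⟩, h3⟩
      exact ⟨⟨h1, by omega⟩, h3⟩
    · rintro ⟨⟨h1, h2⟩, h3⟩
      exact ⟨⟨h1, by omega⟩, h3⟩
  have h2 := Int.Ico_filter_modEq_card (-(H : ℤ)) (H + 1) (r := (Q : ℤ)) (by exact_mod_cast hQ) v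
  rw [← h1] at h2
  have h3 : (NH Q H (v : ZMod Q) : ℤ) = max (⌈((((H : ℤ) + 1 : ℤ) - v : ℚ)) / ((Q : ℤ) : ℚ)⌉ -
      ⌈(((-(H : ℤ) : ℤ) - v : ℚ)) / ((Q : ℤ) : ℚ)⌉) 0 := h2
  set u : ℚ := ((((H : ℤ) + 1 : ℤ) - v : ℚ)) / ((Q : ℤ) : ℚ) with hu
  set w : ℚ := (((-(H : ℤ) : ℤ) - v : ℚ)) / ((Q : ℤ) : ℚ) with hw
  have hQ' : (0 : ℚ) < Q := by exact_mod_cast hQ
  have h4 : u - w = (2 * H + 1) / Q := by
    rw [hu, hw]
    push_cast
    field_simp
    ring
  have h5 : (0 : ℚ) ≤ (2 * H + 1) / Q := by positivity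
  have h6 : ((NH Q H (v : ZMod Q) : ℤ) : ℚ) - (2 * H + 1) / Q ≤ 1 ∧
      -1 ≤ ((NH Q H (v : ZMod Q) : ℤ) : ℚ) - (2 * H + 1) / Q := by
    rw [h3, Int.cast_max]
    push_cast
    have a1 := Int.le_ceil u
    have a2 := Int.ceil_lt_add_one u
    have a3 := Int.le_ceil w
    have a4 := Int.ceil_lt_add_one w
    constructor
    · have : max ((⌈u⌉ : ℚ) - ⌈w⌉) 0 ≤ (2 * H + 1) / Q + 1 := max_le (by linarith) (by linarith)
      linarith
    · have : (⌈u⌉ : ℚ) - ⌈w⌉ ≤ max ((⌈u⌉ : ℚ) - ⌈w⌉) 0 := le_max_left _ _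
      linarith
  rw [abs_le]
  constructor
  · have h7 : ((-1 : ℚ) : ℝ) ≤ ((((NH Q H (v : ZMod Q) : ℤ) : ℚ) - (2 * H + 1) / Q : ℚ) : ℝ) := by
      exact_mod_cast h6.2
    push_cast at h7
    exact h7
  · have h7 : ((((NH Q H (v : ZMod Q) : ℤ) : ℚ) - (2 * H + 1) / Q : ℚ) : ℝ) ≤ ((1 : ℚ) : ℝ) := by
      exact_mod_cast h6.1
    push_cast at h7
    exact h7

theorem NH_tendsto (Q : ℕ) (hQ : 0 < Q) (a : ZMod Q) :
    Tendsto (fun H : ℕ => (NH Q H a : ℝ) / (2 * H + 1)) atTop (𝓝 (1 / Q)) := by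
  rw [tendsto_iff_norm_sub_tendsto_zero]
  have h1 : Tendsto (fun H : ℕ => 1 / (2 * (H : ℝ) + 1)) atTop (𝓝 0) := by
    have h2 : Tendsto (fun H : ℕ => (2 * (H : ℝ) + 1)) atTop atTop := by
      refine tendsto_atTop_add_const_right _ _ ?_
      exact tendsto_natCast_atTop_atTop.const_mul_atTop (by norm_num)
    simpa [Pi.inv_def] using h2.inv_tendsto_atTop
  refine squeeze_zero (fun _ => norm_nonneg _) (fun H => ?_) h1
  have h2 := NH_bound Q H hQ a
  have h3 : (0 : ℝ) < 2 * H + 1 := by positivity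
  have hQ' : (0 : ℝ) < Q := by exact_mod_cast hQ
  have h4 : (NH Q H a : ℝ) / (2 * H + 1) - 1 / Q = ((NH Q H a : ℝ) - (2 * H + 1) / Q) / (2 * H + 1) := by
    field_simp
  rw [h4, norm_div, Real.norm_eq_abs, Real.norm_of_nonneg h3.le]
  gcongr

/-- the mean of a periodic function -/
theorem mean_periodic (k Q : ℕ) [NeZero Q] (g : (Fin k → ZMod Q) → ℂ) :
    Tendsto (fun H : Fin k → ℕ => mean H fun c => g fun j => (c j : ZMod Q)) atTop
      (𝓝 ((∑ a, g a) / (Q : ℂ) ^ k)) := by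
  classical
  have hQ : 0 < Q := Nat.pos_of_ne_zero (NeZero.ne Q)
  have h1 : ∀ H : Fin k → ℕ, mean H (fun c => g fun j => (c j : ZMod Q)) =
      ∑ a : Fin k → ZMod Q, g a * ∏ j, (((NH Q (H j) (a j) : ℝ) / (2 * (H j : ℕ) + 1) : ℝ) : ℂ) := by
    intro H
    unfold mean
    have h2 : ∑ c ∈ Fintype.piFinset fun j : Fin k => Finset.Icc (-(H j : ℤ)) (H j),
        g (fun j => (c j : ZMod Q)) = ∑ a : Fin k → ZMod Q, g a * ∏ j, (NH Q (H j) (a j) : ℂ) := by
      rw [← sum_fiberwise_of_maps_to (t := (univ : Finset (Fin k → ZMod Q)))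
        (g := fun c : Fin k → ℤ => fun j => (c j : ZMod Q)) (fun _ _ => mem_univ _)]
      refine sum_congr rfl fun a _ => ?_
      have h3 : ∀ c ∈ (Fintype.piFinset fun j : Fin k => Finset.Icc (-(H j : ℤ)) (H j)).filter
          (fun c => (fun j => (c j : ZMod Q)) = a), g (fun j => (c j : ZMod Q)) = g a := by
        intro c hc
        rw [mem_filter] at hc
        rw [hc.2]
      rw [sum_congr rfl h3, sum_const, nsmul_eq_mul, mul_comm]
      congr 1
      have h4 : (Fintype.piFinset fun j : Fin k => Finset.Icc (-(H j : ℤ)) (H j)).filter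
          (fun c => (fun j => (c j : ZMod Q)) = a) =
          Fintype.piFinset fun j => (Icc (-(H j : ℤ)) (H j)).filter
            fun x : ℤ => (x : ZMod Q) = a j := by
        ext c
        simp only [mem_filter, Fintype.mem_piFinset, funext_iff]
        constructor
        · rintro ⟨h5, h6⟩ j
          exact ⟨h5 j, h6 j⟩
        · intro h5
          exact ⟨fun j => (h5 j).1, fun j => (h5 j).2⟩
      rw [h4, Fintype.card_piFinset]
      push_cast
      rfl
    rw [h2, sum_div]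
    refine sum_congr rfl fun a _ => ?_
    rw [mul_div_assoc]
    congr 1
    rw [← prod_div_distrib]
    refine prod_congr rfl fun j _ => ?_
    push_cast
    rfl
  simp_rw [h1]
  rw [sum_div]
  refine tendsto_finsetSum _ fun a _ => ?_
  have h2 : g a / (Q : ℂ) ^ k = g a * ∏ _j : Fin k, (((1 / Q : ℝ)) : ℂ) := by
    rw [prod_const, card_univ, Fintype.card_fin]
    push_cast
    rw [div_pow, one_pow, mul_one_div]
  rw [h2]
  refine tendsto_const_nhds.mul (tendsto_finsetProd _ fun j _ => ?_)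
  have hj : Tendsto (fun H : Fin k → ℕ => H j) atTop atTop :=
    tendsto_atTop.2 fun b => (eventually_ge_atTop fun _ => b).mono fun H h => h j
  exact ((Complex.continuous_ofReal.tendsto _).comp (NH_tendsto Q hQ (a j))).comp hj

/-- the mean of a product of functions periodic modulo distinct primes -/
theorem mean_prod (k : ℕ) (S : Finset Nat.Primes) (g : ∀ p : Nat.Primes, (Fin k → ZMod p) → ℂ)
    [∀ p : Nat.Primes, NeZero (p : ℕ)] :
    Tendsto (fun H : Fin k → ℕ => mean H fun c => ∏ p ∈ S, g p fun j => (c j : ZMod p)) atTop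
      (𝓝 (∏ p ∈ S, (∑ a, g p a) / ((p : ℕ) : ℂ) ^ k)) := by
  classical
  let a : S → ℕ := fun p => ((p : Nat.Primes) : ℕ)
  have hcop : Pairwise (Function.onFun Nat.Coprime a) := by
    intro p q hpq
    refine (Nat.coprime_primes p.1.2 q.1.2).2 fun h => hpq ?_
    exact Subtype.ext (Subtype.ext h)
  have hne : NeZero (∏ i, a i) := ⟨prod_ne_zero_iff.2 fun i _ => i.1.2.ne_zero⟩
  let e := ZMod.prodEquivPi a hcop
  have he : ∀ (x : ℤ) (p : S), e (x : ZMod (∏ i, a i)) p = (x : ZMod (a p)) := by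
    intro x p
    rw [map_intCast]
    rfl
  have h1 := mean_periodic k (∏ i, a i)
    fun c => ∏ p : S, g p fun j => e (c j) p
  have h2 : (fun H : Fin k → ℕ => mean H fun c : Fin k → ℤ => ∏ p : S, g p fun j =>
      e ((c j : ℤ) : ZMod (∏ i, a i)) p) =
      fun H : Fin k → ℕ => mean H fun c => ∏ p ∈ S, g p fun j => (c j : ZMod p) := by
    funext H
    congr 1
    funext c
    simp_rw [he]
    exact prod_coe_sort S fun p => g p fun j => ((c j : ℤ) : ZMod p)
  rw [h2] at h1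
  have h3 : (∑ c : Fin k → ZMod (∏ i, a i), ∏ p : S, g p fun j => e (c j) p) /
      ((∏ i, a i : ℕ) : ℂ) ^ k = ∏ p ∈ S, (∑ a, g p a) / ((p : ℕ) : ℂ) ^ k := by
    rw [prod_div_distrib, prod_pow, ← prod_coe_sort S fun p => ((p : ℕ) : ℂ),
      ← prod_coe_sort S fun p => ∑ a, g p a]
    congr 1
    · let E : (Fin k → ZMod (∏ i, a i)) ≃ (∀ p : S, (Fin k → ZMod (a p))) :=
        (Equiv.piCongrRight fun _ : Fin k => e.toEquiv).trans (Equiv.piComm fun _ p => ZMod (a p))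
      have h4 : ∀ c : Fin k → ZMod (∏ i, a i), ∏ p : S, g p (fun j => e (c j) p) =
          ∏ p : S, g p (E c p) := fun c => rfl
      simp_rw [h4]
      rw [E.sum_comp fun d => ∏ p : S, g p (d p)]
      rw [prod_univ_sum]
      refine sum_congr ?_ fun _ _ => rfl
      ext d
      simp
    · push_cast
      rfl
  rw [h3] at h1
  exact h1

end Pool.Agent.P8H9.AV
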