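import Pool.Agent.P8H9.AV.Mean
import Pool.Agent.P8H9.AV.Avg

/-! Tails of products, means of bounded functions, differentiability of local factors. -/

set_option autoImplicit false

open Finset Filter Topology

namespace Pool.Agent.P8H9.AV

section prod

variable {ι : Type*}

theorem norm_prod_le_exp (a : ι → ℂ) (u : ι → ℝ) (ha : ∀ i, ‖a i - 1‖ ≤ u i) (S : Finset ι) :
    ‖∏ i ∈ S, a i‖ ≤ Real.exp (∑ i ∈ S, u i) := by
  rw [norm_prod, Real.exp_sum]
  refine prod_le_prod (fun _ _ => norm_nonneg _) fun i _ => ?_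
  have h1 : ‖a i‖ ≤ ‖a i - 1‖ + 1 := by
    have := norm_add_le (a i - 1) 1
    rwa [sub_add_cancel, norm_one] at this
  have h2 := Real.add_one_le_exp (u i)
  linarith [ha i]

theorem multipliable_of (a : ι → ℂ) (u : ι → ℝ) (hu : Summable u) (ha : ∀ i, ‖a i - 1‖ ≤ u i) :
    Multipliable a := by
  have h := multipliable_one_add_of_summable (f := fun i => a i - 1)
    (Summable.of_nonneg_of_le (fun _ => norm_nonneg _) ha hu)
  simpa using h

theorem prod_tail (a : ι → ℂ) (u : ι → ℝ) (hu : Summable u) (ha : ∀ i, ‖a i - 1‖ ≤ u i)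
    (S : Finset ι) : ‖∏' i, a i - ∏ i ∈ S, a i‖ ≤
      Real.exp (∑' i, u i) * (Real.exp (∑' i, u i - ∑ i ∈ S, u i) - 1) := by
  classical
  have hu0 : ∀ i, 0 ≤ u i := fun i => (norm_nonneg _).trans (ha i)
  have hP := (multipliable_of a u hu ha).hasProd
  have h1 : Tendsto (fun T : Finset ι => ‖∏ i ∈ T, a i - ∏ i ∈ S, a i‖) atTop
      (𝓝 ‖∏' i, a i - ∏ i ∈ S, a i‖) := (hP.sub_const _).norm
  refine le_of_tendsto h1 ?_
  filter_upwards [eventually_ge_atTop S] with T hT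
  have h2 : ∏ i ∈ T, a i = (∏ i ∈ S, a i) * ∏ i ∈ T \ S, a i := by
    rw [mul_comm, prod_sdiff hT]
  have h3 : ∏ i ∈ T, a i - ∏ i ∈ S, a i = (∏ i ∈ S, a i) * (∏ i ∈ T \ S, a i - 1) := by
    rw [h2]
    ring
  rw [h3, norm_mul]
  have h4 := (T \ S).norm_prod_one_add_sub_one_le fun i => a i - 1
  simp only [add_sub_cancel] at h4
  have h5 : ∑ i ∈ T \ S, ‖a i - 1‖ ≤ ∑' i, u i - ∑ i ∈ S, u i := by
    have h6 : ∑ i ∈ T \ S, ‖a i - 1‖ ≤ ∑ i ∈ T \ S, u i := sum_le_sum fun i _ => ha i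
    have h7 : ∑ i ∈ T \ S, u i + ∑ i ∈ S, u i = ∑ i ∈ T, u i := sum_sdiff hT
    have h8 : ∑ i ∈ T, u i ≤ ∑' i, u i := hu.sum_le_tsum T fun i _ => hu0 i
    linarith
  have h6 := norm_prod_le_exp a u ha S
  have h7 : ∑ i ∈ S, u i ≤ ∑' i, u i := hu.sum_le_tsum S fun i _ => hu0 i
  refine mul_le_mul (h6.trans (Real.exp_le_exp.2 h7)) (h4.trans ?_) (norm_nonneg _)
    (Real.exp_pos _).le
  have := Real.exp_le_exp.2 h5
  linarith

/-- the tails are uniformly small -/
theorem tail_small (u : ι → ℝ) (hu : Summable u) {ε : ℝ} (hε : 0 < ε) :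
    ∃ S : Finset ι, Real.exp (∑' i, u i) * (Real.exp (∑' i, u i - ∑ i ∈ S, u i) - 1) < ε := by
  have h1 : Tendsto (fun S : Finset ι => Real.exp (∑' i, u i) *
      (Real.exp (∑' i, u i - ∑ i ∈ S, u i) - 1)) atTop
      (𝓝 (Real.exp (∑' i, u i) * (Real.exp (∑' i, u i - ∑' i, u i) - 1))) := by
    refine tendsto_const_nhds.mul (Tendsto.sub_const ?_ 1)
    exact (Real.continuous_exp.tendsto _).comp (tendsto_const_nhds.sub hu.hasSum)
  rw [sub_self, Real.exp_zero, sub_self, mul_zero] at h1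
  exact ((h1.eventually (gt_mem_nhds hε)).exists)

end prod

section mean

variable {k : ℕ}

theorem card_box (H : Fin k → ℕ) :
    ((Fintype.piFinset fun j : Fin k => Finset.Icc (-(H j : ℤ)) (H j)).card : ℂ) =
    ∏ j : Fin k, (2 * H j + 1 : ℂ) := by
  rw [Fintype.card_piFinset]
  push_cast
  refine prod_congr rfl fun j _ => ?_
  rw [Int.card_Icc]
  have h1 : ((H j : ℤ) + 1 - -(H j : ℤ)).toNat = 2 * H j + 1 := by omega
  rw [h1]
  push_cast
  rfl

theorem norm_mean_le (H : Fin k → ℕ) (Φ : (Fin k → ℤ) → ℂ) (B : ℝ) (h : ∀ c, ‖Φ c‖ ≤ B) :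
    ‖mean H Φ‖ ≤ B := by
  unfold mean
  have h1 : ‖∏ j : Fin k, (2 * H j + 1 : ℂ)‖ =
      ((Fintype.piFinset fun j : Fin k => Finset.Icc (-(H j : ℤ)) (H j)).card : ℝ) := by
    rw [← card_box, Complex.norm_natCast]
  have h2 : (0 : ℝ) <
      ((Fintype.piFinset fun j : Fin k => Finset.Icc (-(H j : ℤ)) (H j)).card : ℝ) := by
    rw [← h1]
    refine norm_pos_iff.2 (prod_ne_zero_iff.2 fun j _ => ?_)
    exact_mod_cast (by omega : 2 * H j + 1 ≠ 0)
  rw [norm_div, h1, div_le_iff₀ h2]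
  refine (norm_sum_le _ _).trans ?_
  refine (sum_le_card_nsmul _ _ B fun c _ => h c).trans_eq ?_
  rw [nsmul_eq_mul, mul_comm]

theorem mean_sub (H : Fin k → ℕ) (Φ Ψ : (Fin k → ℤ) → ℂ) :
    mean H (fun c => Φ c - Ψ c) = mean H Φ - mean H Ψ := by
  unfold mean
  rw [sum_sub_distrib, sub_div]

end mean

section diff

open Polynomial Pool.Agent.H341R2.Sharp

variable {F : Type*} [Field F] [Fintype F] [DecidableEq F]

theorem ell_diff (hF : ringChar F ≠ 2) {g : F[X]} (hg : g.Monic) (hodd : Odd g.natDegree)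
    {x : ℂ} (hx : sq F * ‖x‖ < 1) : DifferentiableAt ℂ (ell g) x := by
  unfold ell
  split_ifs
  · have hs := sq_pos (F := F)
    have hev : ∀ᶠ z : ℂ in 𝓝 x, sq F * ‖z‖ < 1 :=
      (continuous_const.mul continuous_norm).continuousAt.eventually_lt_const hx
    have h1 : DifferentiableAt ℂ (fun z : ℂ => Complex.exp (-∑' n : ℕ, (T g (n + 1) : ℂ) /
        (n + 1 : ℂ) * z ^ (n + 1))) x := by
      refine DifferentiableAt.cexp (DifferentiableAt.neg ?_)
      refine (hasDerivAt_ser (c := fun n => (T g n : ℂ)) (R := 1 / sq F) (C := (5 * g.natDegree : ℕ))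
        (by positivity) (fun n hn => ?_) ?_).differentiableAt
      · rw [Complex.norm_intCast, one_div, inv_pow, ← div_eq_mul_inv, div_le_iff₀ (by positivity)]
        exact T_bd hF hg hodd n hn
      · rw [lt_div_iff₀ hs, mul_comm]
        exact hx
    refine h1.congr_of_eventuallyEq ?_
    filter_upwards [hev] with z hz
    exact (exp_local hF hg hodd hz).symm
  · exact differentiableAt_const 1

end diff

end Pool.Agent.P8H9.AV
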