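import Pool.Agent.P8H9.AV.Coef

/-! Vanishing of the averages of the coefficients over the family `f + c_{k-1} x^{k-1} + … + c_0`. -/

set_option autoImplicit false

namespace Pool.Agent.P8H9.AV

open Polynomial Finset Pool.Agent.H341R2.Sharp

universe u

variable {F : Type u} [Field F] [Fintype F] [DecidableEq F]

/-- the residue field of an irreducible polynomial -/
theorem lam_irr (hF : ringChar F ≠ 2) {P : F[X]} (hP : P.Monic) (hi : Irreducible P) :
    ∃ (E : Type u) (_ : Field E) (_ : Fintype E) (_ : DecidableEq E) (φ : F[X] →+* E),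
      ringChar E ≠ 2 ∧ Function.Surjective φ ∧ (∀ h, φ h = 0 ↔ P ∣ h) ∧
      ∀ h, lam h P = quadraticChar E (φ h) := by
  classical
  have : Fact (Irreducible P) := ⟨hi⟩
  have : Module.Finite F (AdjoinRoot P) := hP.finite_adjoinRoot
  have : Finite (AdjoinRoot P) := Module.finite_of_finite F
  let _ : Fintype (AdjoinRoot P) := Fintype.ofFinite _
  have hE : ringChar (AdjoinRoot P) ≠ 2 := by
    rwa [← Algebra.ringChar_eq F (AdjoinRoot P)]
  refine ⟨AdjoinRoot P, inferInstance, inferInstance, inferInstance, AdjoinRoot.mk P, hE,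
    AdjoinRoot.mk_surjective, fun h => AdjoinRoot.mk_eq_zero, fun h => ?_⟩
  have h1 := qc_aeval (E := AdjoinRoot P) hF h (AdjoinRoot.root P)
  have h2 : minpoly F (AdjoinRoot.root P) = P := by
    rw [AdjoinRoot.minpoly_root hi.ne_zero, hP.leadingCoeff]
    simp
  have h3 : Module.finrank F (AdjoinRoot P) = P.natDegree := by
    rw [(AdjoinRoot.powerBasis hi.ne_zero).finrank, AdjoinRoot.powerBasis_dim]
  rw [h2, h3, Nat.div_self hi.natDegree_pos, pow_one, AdjoinRoot.aeval_eq] at h1
  exact h1.symm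

theorem lam_congr (hF : ringChar F ≠ 2) {P : F[X]} (hP : P.Monic) (hi : Irreducible P)
    {g h : F[X]} (hgh : P ∣ g - h) : lam g P = lam h P := by
  obtain ⟨E, _, _, _, φ, -, -, h1, h2⟩ := lam_irr hF hP hi
  rw [h2, h2]
  congr 1
  rw [← sub_eq_zero, ← map_sub, h1]
  exact hgh

theorem exists_flip (hF : ringChar F ≠ 2) {P : F[X]} (hP : P.Monic) (hi : Irreducible P) :
    ∃ ρ : F[X], ¬ P ∣ ρ ∧ ∀ h, lam (ρ * h) P = -lam h P := by
  obtain ⟨E, _, _, _, φ, h0, hs, h1, h2⟩ := lam_irr hF hP hi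
  obtain ⟨a, ha⟩ := FiniteField.exists_nonsquare h0
  obtain ⟨ρ, hρ⟩ := hs a
  have ha0 : a ≠ 0 := by
    rintro rfl
    exact ha (by simp)
  refine ⟨ρ, fun h => ha0 (by rw [← hρ, (h1 ρ).2 h]), fun h => ?_⟩
  rw [h2, h2, map_mul, map_mul, hρ, quadraticChar_neg_one_iff_not_isSquare.2 ha]
  ring

/-- a member of the family -/
noncomputable def fam (f : F[X]) {k : ℕ} (c : Fin k → F) : F[X] :=
  f + ∑ j : Fin k, C (c j) * X ^ (j : ℕ)

omit [Fintype F] [DecidableEq F] in
theorem fam_coeff (f : F[X]) {k : ℕ} (c : Fin k → F) (n : ℕ) :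
    (fam f c).coeff n = f.coeff n + if h : n < k then c ⟨n, h⟩ else 0 := by
  unfold fam
  rw [coeff_add, finsetSum_coeff]
  congr 1
  split_ifs with h
  · rw [sum_eq_single ⟨n, h⟩]
    · simp
    · intro j _ hj
      rw [coeff_C_mul, coeff_X_pow, if_neg, mul_zero]
      intro h'
      exact hj (Fin.ext h'.symm)
    · intro h'
      exact absurd (mem_univ _) h'
  · apply sum_eq_zero
    intro j _
    rw [coeff_C_mul, coeff_X_pow, if_neg, mul_zero]
    have := j.2
    omega

omit [Fintype F] [DecidableEq F] in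
theorem fam_injective (f : F[X]) {k : ℕ} : Function.Injective (fam f (k := k)) := by
  intro c c' h
  funext j
  have h1 := congrArg (fun g => g.coeff (j : ℕ)) h
  simp only [fam_coeff, j.2, dif_pos, Fin.eta] at h1
  exact add_left_cancel h1

omit [Fintype F] [DecidableEq F] in
/-- adding a polynomial of small degree -/
theorem fam_add (f : F[X]) {k : ℕ} (c : Fin k → F) (δ : F[X]) (hδ : δ.degree < k) :
    fam f (fun j => c j + δ.coeff j) = fam f c + δ := by
  ext n
  rw [coeff_add, fam_coeff, fam_coeff]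
  split_ifs with h
  · ring
  · rw [coeff_eq_zero_of_degree_lt (hδ.trans_le (by exact_mod_cast not_lt.1 h))]
    ring

/-- vanishing -/
theorem sum_prod_lam (hF : ringChar F ≠ 2) (f : F[X]) {k : ℕ} (S : Finset F[X])
    (hS : ∀ P ∈ S, P.Monic ∧ Irreducible P) (hne : S.Nonempty)
    (hdeg : ∑ P ∈ S, P.natDegree ≤ k) :
    ∑ c : Fin k → F, ∏ P ∈ S, lam (fam f c) P = 0 := by
  classical
  obtain ⟨P₀, hP₀⟩ := hne
  obtain ⟨ρ, hρ1, hρ2⟩ := exists_flip hF (hS P₀ hP₀).1 (hS P₀ hP₀).2
  set Q' : F[X] := ∏ P ∈ S.erase P₀, P with hQ'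
  set Q : F[X] := P₀ * Q' with hQ
  have hQQ : Q = ∏ P ∈ S, P := mul_prod_erase S (fun P => P) hP₀
  have hmonQ : Q.Monic := by
    rw [hQQ]
    exact monic_prod_of_monic S _ fun P hP => (hS P hP).1
  have hdegQ : Q.natDegree ≤ k := by
    rw [hQQ, natDegree_prod_of_monic S _ fun P hP => (hS P hP).1]
    exact hdeg
  have hcop : IsCoprime P₀ Q' := by
    refine IsCoprime.prod_right fun P hP => ?_
    rw [mem_erase] at hP
    refine ((hS P₀ hP₀).2.coprime_iff_not_dvd.2 fun h => hP.1 ?_)
    exact (eq_of_monic_of_associated (hS P₀ hP₀).1 (hS P hP.2).1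
      ((hS P₀ hP₀).2.associated_of_dvd (hS P hP.2).2 h)).symm
  obtain ⟨u, v, huv⟩ := hcop
  -- multiplier
  set t : F[X] := (ρ - 1) * (v * Q') with ht
  have hcopr : IsCoprime (1 + t) Q := by
    rw [hQ]
    refine IsCoprime.mul_right ?_ ?_
    · refine IsCoprime.symm ((hS P₀ hP₀).2.coprime_iff_not_dvd.2 fun h => hρ1 ?_)
      have h1 : 1 + t = ρ + P₀ * (-(ρ - 1) * u) := by
        have : v * Q' = 1 - u * P₀ := by rw [← huv]; ring
        rw [ht, this]
        ring
      rw [h1] at h
      exact (dvd_add_left (dvd_mul_right _ _)).1 h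
    · refine ⟨1, -((ρ - 1) * v), ?_⟩
      rw [ht]
      ring
  let δ : (Fin k → F) → F[X] := fun c => (t * fam f c) %ₘ Q
  have hδdeg : ∀ c, (δ c).degree < k := fun c =>
    (degree_modByMonic_lt _ hmonQ).trans_le
      ((degree_le_natDegree).trans (by exact_mod_cast hdegQ))
  have hδdvd : ∀ c, Q ∣ (t * fam f c) - δ c := by
    intro c
    have := modByMonic_add_div (t * fam f c) Q
    refine ⟨(t * fam f c) /ₘ Q, ?_⟩
    change t * fam f c - (t * fam f c) %ₘ Q = _
    linear_combination (norm := ring1) -this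
  let σ : (Fin k → F) → (Fin k → F) := fun c j => c j + (δ c).coeff j
  have hσ : ∀ c, fam f (σ c) = fam f c + δ c := fun c => fam_add f c (δ c) (hδdeg c)
  have hinj : Function.Injective σ := by
    intro c c' h
    have h1 : fam f c + δ c = fam f c' + δ c' := by rw [← hσ, ← hσ, h]
    have h2 : Q ∣ (1 + t) * (fam f c - fam f c') := by
      have h3 : (1 + t) * (fam f c - fam f c') =
          ((t * fam f c) - δ c) - ((t * fam f c') - δ c') + ((fam f c + δ c) - (fam f c' + δ c')) := by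
        ring
      rw [h3, h1, sub_self, add_zero]
      exact dvd_sub (hδdvd c) (hδdvd c')
    have h4 : Q ∣ fam f c - fam f c' := hcopr.symm.dvd_of_dvd_mul_left h2
    have h5 : δ c = δ c' := by
      have h6 : (t * (fam f c - fam f c')) %ₘ Q = 0 :=
        (modByMonic_eq_zero_iff_dvd hmonQ).2 (h4.mul_left t)
      rw [mul_sub, sub_modByMonic] at h6
      exact sub_eq_zero.1 h6
    rw [h5] at h1
    exact fam_injective f (add_right_cancel h1)
  have hbij : Function.Bijective σ := Finite.injective_iff_bijective.1 hinj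
  have hflip : ∀ c, ∏ P ∈ S, lam (fam f (σ c)) P = -∏ P ∈ S, lam (fam f c) P := by
    intro c
    rw [← mul_prod_erase S _ hP₀, ← mul_prod_erase S _ hP₀]
    have h1 : lam (fam f (σ c)) P₀ = -lam (fam f c) P₀ := by
      rw [← hρ2]
      refine lam_congr hF (hS P₀ hP₀).1 (hS P₀ hP₀).2 ?_
      rw [hσ]
      have h2 : P₀ ∣ (t * fam f c) - δ c := (dvd_mul_right P₀ Q').trans (hδdvd c)
      have h3 : fam f c + δ c - ρ * fam f c =
          -((t * fam f c) - δ c) + P₀ * (-(ρ - 1) * u * fam f c) := by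
        have : v * Q' = 1 - u * P₀ := by rw [← huv]; ring
        rw [ht, this]
        ring
      rw [h3]
      exact dvd_add (dvd_neg.2 h2) (dvd_mul_right _ _)
    have h4 : ∏ P ∈ S.erase P₀, lam (fam f (σ c)) P = ∏ P ∈ S.erase P₀, lam (fam f c) P := by
      refine prod_congr rfl fun P hP => ?_
      have hP' := (mem_erase.1 hP).2
      refine lam_congr hF (hS P hP').1 (hS P hP').2 ?_
      rw [hσ, add_sub_cancel_left]
      have h5 : P ∣ Q' := dvd_prod_of_mem (fun P => P) hP
      have h6 : P ∣ (t * fam f c) - δ c := (h5.mul_left P₀).trans (hδdvd c)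
      have h7 : P ∣ t * fam f c := by
        rw [ht]
        exact ((h5.mul_left v).mul_left (ρ - 1)).mul_right _
      exact (dvd_sub_right h7).1 h6
    rw [h1, h4]
    ring
  have hsum := hbij.sum_comp fun c => ∏ P ∈ S, lam (fam f c) P
  simp_rw [hflip] at hsum
  rw [sum_neg_distrib] at hsum
  omega

/-- the averages of the coefficients vanish -/
theorem sum_Bc (hF : ringChar F ≠ 2) (f : F[X]) {k n : ℕ} (hn : 1 ≤ n) (hnk : n ≤ k) :
    ∑ c : Fin k → F, Bc (fam f c) n = 0 := by
  classical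
  simp_rw [Bc_eq]
  rw [sum_comm]
  apply sum_eq_zero
  intro S hS
  rw [mem_powerset] at hS
  split_ifs with h
  · rw [← mul_sum]
    have hne : S.Nonempty := by
      rw [nonempty_iff_ne_empty]
      rintro rfl
      rw [sum_empty] at h
      omega
    rw [sum_prod_lam hF f S (fun P hP => ⟨(mem_Irr.1 (hS hP)).1, (mem_Irr.1 (hS hP)).2.1⟩) hne
      (by omega), mul_zero]
  · simp

end Pool.Agent.P8H9.AV
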